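import Pool.Agent.H397R2.PP.A

set_option autoImplicit false

/-!
# Sections modulo 2 and powers
-/

namespace Pool.Agent.K7.H72.MT

open PowerSeries

abbrev S := PowerSeries (ZMod 2)

/-- the section of `f` at `b` modulo 2: the coefficients of `f` at the `2 n + b` -/
noncomputable def sec (b : ℕ) (f : S) : S := PowerSeries.mk fun n => coeff (2 * n + b) f

theorem coeff_sec (b n : ℕ) (f : S) : coeff n (sec b f) = coeff (2 * n + b) f := by
  unfold sec
  rw [coeff_mk]

theorem sq_eq (a : S) : a ^ 2 = PowerSeries.expand 2 (by norm_num) a :=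
  Pool.Agent.H397R2.PP.pow_eq_expand' 2 1 (by norm_num) (by norm_num) a

theorem coeff_sq (a : S) (n : ℕ) : coeff n (a ^ 2) = if 2 ∣ n then coeff (n / 2) a else 0 := by
  rw [sq_eq, coeff_expand]

/-- sections are linear over the squares -/
theorem coeff_mul_sq (a c : S) (b n : ℕ) (hb : b < 2) :
    coeff (2 * n + b) (a * c ^ 2) = coeff n (sec b a * c) := by
  rw [coeff_mul, coeff_mul]
  rw [← Finset.sum_subset (s₁ := (Finset.HasAntidiagonal.antidiagonal n).image fun p => (2 * p.1 + b, 2 * p.2))]
  · rw [Finset.sum_image]
    · refine Finset.sum_congr rfl fun p _ => ?_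
      rw [coeff_sec, coeff_sq, if_pos (Dvd.intro _ rfl), Nat.mul_div_cancel_left _ (by norm_num)]
    · intro p _ q _ h
      simp only [Prod.mk.injEq] at h
      ext <;> omega
  · intro p hp
    rw [Finset.mem_image] at hp
    obtain ⟨q, hq, rfl⟩ := hp
    rw [Finset.HasAntidiagonal.mem_antidiagonal] at hq ⊢
    simp only
    omega
  · intro p hp hp2
    rw [Finset.HasAntidiagonal.mem_antidiagonal] at hp
    rw [coeff_sq]
    split_ifs with h
    · exfalso
      apply hp2
      rw [Finset.mem_image]
      refine ⟨(p.1 / 2, p.2 / 2), ?_, ?_⟩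
      · rw [Finset.HasAntidiagonal.mem_antidiagonal]
        simp only
        omega
      · ext
        · simp only
          omega
        · simp only
          omega
    · rw [mul_zero]

/-- one step: multiply by `G ^ e` and take the section at `b` -/
noncomputable def step (G : S) (b e : ℕ) (U : S) : S := sec b (U * G ^ e)

/-- the coefficients of `U G ^ t` through the digits -/
theorem coeff_step (G U : S) (t n : ℕ) :
    coeff n (U * G ^ t) = coeff (n / 2) (step G (n % 2) (t % 2) U * G ^ (t / 2)) := by
  unfold step
  rw [← coeff_mul_sq _ _ _ _ (Nat.mod_lt _ (by norm_num)), ← pow_mul, mul_assoc, ← pow_add,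
    Nat.div_add_mod, mul_comm (t / 2) 2, Nat.mod_add_div]

/-- the coefficient of a product at the smallest exponent -/
theorem coeff_low {U H : S} {v : ℕ} (hU : ∀ i < v, coeff i U = 0) (hH : coeff 0 H = 1) :
    coeff v (U * H) = coeff v U := by
  rw [coeff_mul, Finset.sum_eq_single (v, 0)]
  · simp only [hH, mul_one]
  · intro p hp hne
    rw [Finset.HasAntidiagonal.mem_antidiagonal] at hp
    have : p.1 < v := by
      rcases Nat.lt_or_ge p.1 v with h | h
      · exact h
      · exfalso
        apply hne
        ext
        · simp only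
          omega
        · simp only
          omega
    rw [hU _ this, zero_mul]
  · intro h
    exfalso
    apply h
    rw [Finset.HasAntidiagonal.mem_antidiagonal]
    simp

theorem coeff_lt {U H : S} {v : ℕ} (hU : ∀ i < v, coeff i U = 0) : ∀ i < v, coeff i (U * H) = 0 := by
  intro i hi
  rw [coeff_mul]
  refine Finset.sum_eq_zero fun p hp => ?_
  rw [Finset.HasAntidiagonal.mem_antidiagonal] at hp
  rw [hU _ (by omega), zero_mul]

theorem coeff_zero_pow {G : S} (hG : coeff 0 G = 1) (t : ℕ) : coeff 0 (G ^ t) = 1 := by
  rw [coeff_zero_eq_constantCoeff_apply] at hG ⊢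
  rw [map_pow, hG, one_pow]

end Pool.Agent.K7.H72.MT
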