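import Pool.Agent.K7.H72.MT.A
import Pool.Agent.K7.H72.MT.B

set_option autoImplicit false

/-!
# The weights: soundness of the finite check
-/

namespace Pool.Agent.K7.H72.MT

open PowerSeries

/-- the numbers at the end of the tree, for the digits `c` -/
def acc : List (ℕ × ℕ) → (ℕ → Bool) → ℕ → ℕ
  | [], _, s => s
  | (a, b) :: l, c, s => acc l (fun i => c (i + 2))
      (s ^^^ (if c 0 then a else 0) ^^^ (if c 1 then b else 0))

/-- the pairs of a list of levels -/
def prs (l : List (ℕ × ℕ × ℕ × ℕ)) : List (ℕ × ℕ) := l.map fun x => x.2.2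

/-- the table of a list of levels: the tables of minima increase, and the later vectors do not
change the lower digits -/
def okl : List (ℕ × ℕ × ℕ × ℕ) → Bool
  | [] => false
  | [(m, T, a, b)] => m == 2 ^ 12 && T == T12 && a == 0 && b == 0
  | (m, T, a, b) :: (m', T', a', b') :: l =>
      m == 2 ^ (Nat.log2 m) && m' == 2 * m &&
      [12, 24, 36, 48].all (fun o => Nat.mod (Nat.shiftRight a o) m == 0 &&
        Nat.mod (Nat.shiftRight b o) m == 0) && Nat.mod a 4096 == 0 && Nat.mod b 4096 == 0 &&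
      (List.range m').all (fun x => Nat.ble (q T x m) (q T' x m')) &&
      okl ((m', T', a', b') :: l)

theorem okl_lev : okl lev = true := by
  decide +kernel

theorem mod_xor {m s a o : ℕ} {i : ℕ} (hm : m = 2 ^ i) (ha : (a >>> o) % m = 0) :
    ((s ^^^ a) >>> o) % m = (s >>> o) % m := by
  subst hm
  rw [Nat.shiftRight_xor_distrib, Nat.xor_mod_two_pow, ha, Nat.xor_zero]

theorem mod_if {m s a o : ℕ} {i : ℕ} (hm : m = 2 ^ i) (ha : (a >>> o) % m = 0) (c : Bool) :
    ((s ^^^ (if c then a else 0)) >>> o) % m = (s >>> o) % m := by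
  cases c
  · simp
  · simp only [if_true]
    exact mod_xor hm ha

/-- the tables of minima bound the weights from below -/
theorem mono (l : List (ℕ × ℕ × ℕ × ℕ)) : ∀ (m T a b : ℕ), okl ((m, T, a, b) :: l) = true →
    ∀ (c : ℕ → Bool) (s o : ℕ), o ∈ [12, 24, 36, 48] →
      q T (s >>> o) m ≤ q T12 ((acc (prs ((m, T, a, b) :: l)) c s) >>> o) 4096 := by
  induction l with
  | nil =>
    intro m T a b h c s o ho
    simp only [okl, Bool.and_eq_true, beq_iff_eq] at h
    obtain ⟨⟨⟨hm, hT⟩, ha⟩, hb⟩ := h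
    subst hm hT ha hb
    simp [prs, acc]
  | cons x l ih =>
    intro m T a b h c s o ho
    obtain ⟨m', T', a', b'⟩ := x
    simp only [okl, Bool.and_eq_true, beq_iff_eq, List.all_eq_true] at h
    obtain ⟨⟨⟨⟨⟨⟨hm, hm'⟩, hab⟩, -⟩, -⟩, hT⟩, hok⟩ := h
    obtain ⟨ha, hb⟩ := hab o ho
    have h1 := ih m' T' a' b' hok (fun i => c (i + 2))
      (s ^^^ (if c 0 then a else 0) ^^^ (if c 1 then b else 0)) o ho
    refine le_trans ?_ h1
    have h2 : ((s ^^^ (if c 0 then a else 0) ^^^ (if c 1 then b else 0)) >>> o) % m =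
        (s >>> o) % m := by
      rw [mod_if hm hb, mod_if hm ha]
    set y := (s ^^^ (if c 0 then a else 0) ^^^ (if c 1 then b else 0)) >>> o with hy
    have hm0 : 0 < m' := by
      rw [hm', hm]
      positivity
    have h3 := hT (y % m') (List.mem_range.2 (Nat.mod_lt _ hm0))
    have h4 : q T (y % m') m = q T (s >>> o) m := by
      have : (y % m') % m = (s >>> o) % m := by
        rw [← h2, hm', Nat.mod_mul_left_mod]
      change Nat.mod (Nat.shiftRight T (Nat.mul 6 ((y % m') % m))) 64 = _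
      rw [this]
      rfl
    have h5 : q T' (y % m') m' = q T' y m' := by
      change Nat.mod (Nat.shiftRight T' (Nat.mul 6 ((y % m') % m'))) 64 = _
      rw [Nat.mod_mod]
      rfl
    rw [h4, h5] at h3
    exact Nat.le_of_ble_eq_true h3

theorem fix (l : List (ℕ × ℕ × ℕ × ℕ)) : ∀ (m T a b : ℕ), okl ((m, T, a, b) :: l) = true →
    ∀ (c : ℕ → Bool) (s : ℕ),
      (acc (prs ((m, T, a, b) :: l)) c s) % 4096 = s % 4096 := by
  induction l with
  | nil =>
    intro m T a b h c s
    simp only [okl, Bool.and_eq_true, beq_iff_eq] at h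
    obtain ⟨⟨⟨hm, hT⟩, ha⟩, hb⟩ := h
    subst hm hT ha hb
    simp [prs, acc]
  | cons x l ih =>
    intro m T a b h c s
    obtain ⟨m', T', a', b'⟩ := x
    simp only [okl, Bool.and_eq_true, beq_iff_eq, List.all_eq_true] at h
    obtain ⟨⟨⟨⟨⟨⟨hm, hm'⟩, hab⟩, ha⟩, hb⟩, hT⟩, hok⟩ := h
    have h1 := ih m' T' a' b' hok (fun i => c (i + 2))
      (s ^^^ (if c 0 then a else 0) ^^^ (if c 1 then b else 0))
    have h2 : (s ^^^ (if c 0 then a else 0) ^^^ (if c 1 then b else 0)) % 4096 = s % 4096 := by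
      have e1 := mod_if (m := 4096) (s := s ^^^ (if c 0 then a else 0)) (a := b) (o := 0) (i := 12)
        (by norm_num) (by rw [Nat.shiftRight_zero]; exact hb) (c 1)
      have e2 := mod_if (m := 4096) (s := s) (a := a) (o := 0) (i := 12)
        (by norm_num) (by rw [Nat.shiftRight_zero]; exact ha) (c 0)
      rw [Nat.shiftRight_zero, Nat.shiftRight_zero] at e1 e2
      rw [e1, e2]
    rw [← h2]
    exact h1

/-- the condition at the end of the tree -/
def fin (f : ℕ) : Prop :=
  q T12 f 4096 ≤ q T12 (f >>> 12) 4096 + q T12 (f >>> 24) 4096 ∧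
  q T12 f 4096 ≤ q T12 (f >>> 36) 4096 + q T12 (f >>> 48) 4096 ∧
  57 * (q T12 f 4096 * q T12 f 4096) ≤ 20 * ((q T12 (f >>> 12) 4096 + q T12 (f >>> 24) 4096) *
    (q T12 (f >>> 36) 4096 + q T12 (f >>> 48) 4096))

theorem cond_iff (p a b : ℕ) (h : cond p a b = true) :
    p ≤ a ∧ p ≤ b ∧ 57 * (p * p) ≤ 20 * (a * b) := by
  unfold cond at h
  rw [Bool.and_eq_true, Bool.and_eq_true] at h
  exact ⟨Nat.le_of_ble_eq_true h.2.1, Nat.le_of_ble_eq_true h.2.2, Nat.le_of_ble_eq_true h.1⟩

theorem chk_sound (l : List (ℕ × ℕ × ℕ × ℕ)) : (∀ x ∈ l.head?, okl l = true) →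
    ∀ (s : ℕ), chk l s = true → ∀ c : ℕ → Bool, fin (acc (prs l) c s) := by
  induction l with
  | nil =>
    intro _ s h
    simp [chk] at h
  | cons x l ih =>
    intro hl s h c
    obtain ⟨m, T, a, b⟩ := x
    have hl' := hl (m, T, a, b) (by simp)
    rw [chk, Bool.or_eq_true] at h
    rcases h with h | h
    · have h1 := cond_iff _ _ _ h
      have hm := mono l m T a b hl' c s
      have hf := fix l m T a b hl' c s
      set f := acc (prs ((m, T, a, b) :: l)) c s with hfdef
      have hp : q T12 f 4096 = q T12 s 4096 := by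
        change Nat.mod (Nat.shiftRight T12 (Nat.mul 6 (f % 4096))) 64 = _
        rw [hf]
        rfl
      have m1 := hm 12 (by simp)
      have m2 := hm 24 (by simp)
      have m3 := hm 36 (by simp)
      have m4 := hm 48 (by simp)
      obtain ⟨g1, g2, g3⟩ := h1
      unfold fin
      rw [hp]
      change _ ≤ q T (s >>> 12) m + q T (s >>> 24) m at g1
      change _ ≤ q T (s >>> 36) m + q T (s >>> 48) m at g2
      change 57 * (q T12 s 4096 * q T12 s 4096) ≤ 20 * ((q T (s >>> 12) m + q T (s >>> 24) m) *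
        (q T (s >>> 36) m + q T (s >>> 48) m)) at g3
      refine ⟨by omega, by omega, g3.trans ?_⟩
      gcongr
    · have hl2 : ∀ x ∈ l.head?, okl l = true := by
        intro y hy
        rcases l with _ | ⟨⟨m', T', a', b'⟩, l⟩
        · simp at hy
        · simp only [okl, Bool.and_eq_true, beq_iff_eq, List.all_eq_true] at hl'
          exact hl'.2
      rw [Bool.and_eq_true, Bool.and_eq_true, Bool.and_eq_true] at h
      obtain ⟨⟨h1, h2⟩, h3, h4⟩ := h
      change fin (acc (prs l) (fun i => c (i + 2))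
        (s ^^^ (if c 0 then a else 0) ^^^ (if c 1 then b else 0)))
      rcases hc0 : c 0 with _ | _ <;> rcases hc1 : c 1 with _ | _
      · simpa using ih hl2 _ h1 (fun i => c (i + 2))
      · simpa using ih hl2 _ h3 (fun i => c (i + 2))
      · simpa using ih hl2 _ h2 (fun i => c (i + 2))
      · have := ih hl2 _ h4 (fun i => c (i + 2))
        change fin (acc (prs l) (fun i => c (i + 2)) (s ^^^ (a ^^^ b))) at this
        rw [← Nat.xor_assoc] at this
        simpa using this

theorem chk0_sound (l : List (ℕ × ℕ)) : ∀ (s : ℕ), chk0 l s = true → ∀ c : ℕ → Bool,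
    fin (acc (l ++ prs lev) c s) := by
  induction l with
  | nil =>
    intro s h c
    exact chk_sound lev (fun _ _ => okl_lev) s h c
  | cons x l ih =>
    intro s h c
    obtain ⟨a, b⟩ := x
    rw [chk0, Bool.and_eq_true, Bool.and_eq_true, Bool.and_eq_true] at h
    obtain ⟨⟨h1, h2⟩, h3, h4⟩ := h
    change fin (acc (l ++ prs lev) (fun i => c (i + 2))
      (s ^^^ (if c 0 then a else 0) ^^^ (if c 1 then b else 0)))
    rcases hc0 : c 0 with _ | _ <;> rcases hc1 : c 1 with _ | _
    · simpa using ih _ h1 (fun i => c (i + 2))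
    · simpa using ih _ h3 (fun i => c (i + 2))
    · simpa using ih _ h2 (fun i => c (i + 2))
    · have := ih _ h4 (fun i => c (i + 2))
      change fin (acc (l ++ prs lev) (fun i => c (i + 2)) (s ^^^ (a ^^^ b))) at this
      rw [← Nat.xor_assoc] at this
      simpa using this

theorem fin_all (c : ℕ → Bool) : fin (acc (lev0 ++ prs lev) c 0) :=
  chk0_sound lev0 0 chk_true c

end Pool.Agent.K7.H72.MT
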