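import Pool.Agent.K7.H72.MT.C

set_option autoImplicit false

/-!
# The weights of power series
-/

namespace Pool.Agent.K7.H72.MT

open PowerSeries

/-- the parities of the first 24 partition numbers -/
def pb (i : ℕ) : Bool := [0, 1, 3, 4, 5, 6, 7, 12, 13, 14, 16, 17, 18, 20, 23].contains i

/-- the first 24 coefficients of `G` are those of the partition generating function -/
def IsP (G : S) : Prop := ∀ i < 24, coeff i G = if pb i then 1 else 0

/-- a digit modulo 2 -/
def bz (b : Bool) : ZMod 2 := if b then 1 else 0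

theorem bz_xor (a b : Bool) : bz (a ^^ b) = bz a + bz b := by
  revert a b
  decide

theorem bz_decide (x : ZMod 2) : bz (decide (x = 1)) = x := by
  revert x
  decide

theorem bz_inj {a b : Bool} (h : bz a = bz b) : a = b := by
  revert a b
  decide

/-- the vectors of a list of pairs -/
def flat (l : List (ℕ × ℕ)) : List ℕ := l.flatMap fun x => [x.1, x.2]

theorem testBit_acc (l : List (ℕ × ℕ)) : ∀ (c : ℕ → Bool) (s m : ℕ),
    bz ((acc l c s).testBit m) = bz (s.testBit m) +
      ∑ j ∈ Finset.range (2 * l.length), bz (c j) * bz (((flat l).getD j 0).testBit m) := by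
  induction l with
  | nil =>
    intro c s m
    simp [acc]
  | cons x l ih =>
    intro c s m
    obtain ⟨a, b⟩ := x
    rw [acc, ih, List.length_cons, mul_add, mul_one, Finset.sum_range_succ', Finset.sum_range_succ']
    have h0 : (flat ((a, b) :: l)).getD 0 0 = a := rfl
    have h1 : (flat ((a, b) :: l)).getD (0 + 1) 0 = b := rfl
    have h2 : ∀ j, (flat ((a, b) :: l)).getD (j + 1 + 1) 0 = (flat l).getD j 0 := fun j => rfl
    simp only [h0, h1, h2, Nat.testBit_xor, bz_xor]
    have h3 : ∀ (d : Bool) (z : ℕ), bz ((if d then z else 0).testBit m) = bz d * bz (z.testBit m) := by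
      intro d z
      cases d
      · simp [bz]
      · simp [bz]
    rw [h3, h3]
    ring

/-- the vectors -/
def av (j : ℕ) : ℕ := (flat (lev0 ++ prs lev)).getD j 0

/-- the position of the digit `k` of `V` -/
def pos0 (k : ℕ) : ℕ := if k % 2 = 0 then 12 + k / 2 else 24 + k / 2

/-- the position of the digit `k` of `V G` -/
def pos1 (k : ℕ) : ℕ := if k % 2 = 0 then 36 + k / 2 else 48 + k / 2

theorem av0 : ∀ k < 24, ∀ j < 26, (av j).testBit (pos0 k) = decide (j = k) := by
  decide +kernel

theorem av1 : ∀ k < 24, ∀ j < 26, (av j).testBit (pos1 k) = (decide (j ≤ k) && pb (k - j)) := by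
  decide +kernel

theorem avv : ∀ k < 12, ∀ j < 26, (av j).testBit k = decide (j = k) := by
  decide +kernel

/-- the number of a series -/
noncomputable def fs (U : S) : ℕ := acc (lev0 ++ prs lev) (fun j => decide (coeff j U = 1)) 0

theorem bit_fs (U : S) (m : ℕ) : bz ((fs U).testBit m) =
    ∑ j ∈ Finset.range 26, coeff j U * bz ((av j).testBit m) := by
  unfold fs
  rw [testBit_acc, show (lev0 ++ prs lev).length = 13 from rfl]
  simp only [bz_decide, Nat.zero_testBit]
  simp [bz, av]

theorem sum_delta (U : S) (k : ℕ) (hk : k < 26) :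
    ∑ j ∈ Finset.range 26, coeff j U * bz (decide (j = k)) = coeff k U := by
  rw [Finset.sum_eq_single k]
  · simp [bz]
  · intro j _ hj
    simp [bz, hj]
  · intro h
    exact absurd (Finset.mem_range.2 hk) h

theorem coeff_UG {G : S} (hG : IsP G) (U : S) (k : ℕ) (hk : k < 24) :
    coeff k (U * G) = ∑ j ∈ Finset.range 26, coeff j U * bz (decide (j ≤ k) && pb (k - j)) := by
  rw [coeff_mul, Finset.Nat.sum_antidiagonal_eq_sum_range_succ (fun i j => coeff i U * coeff j G)]
  rw [← Finset.sum_subset (s₁ := Finset.range k.succ) (s₂ := Finset.range 26)]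
  · refine Finset.sum_congr rfl fun j hj => ?_
    rw [Finset.mem_range] at hj
    have hjk : j ≤ k := by omega
    rw [hG _ (by omega), decide_eq_true hjk, Bool.true_and]
    rfl
  · intro j hj
    rw [Finset.mem_range] at hj ⊢
    omega
  · intro j _ hj
    rw [Finset.mem_range] at hj
    have hjk : ¬ j ≤ k := by omega
    rw [decide_eq_false hjk]
    simp [bz]

theorem bit0 (U : S) (k : ℕ) (hk : k < 24) :
    (fs U).testBit (pos0 k) = decide (coeff k U = 1) := by
  apply bz_inj
  rw [bit_fs, bz_decide, ← sum_delta U k (by omega)]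
  refine Finset.sum_congr rfl fun j hj => ?_
  rw [av0 k hk j (Finset.mem_range.1 hj)]

theorem bitv (U : S) (k : ℕ) (hk : k < 12) :
    (fs U).testBit k = decide (coeff k U = 1) := by
  apply bz_inj
  rw [bit_fs, bz_decide, ← sum_delta U k (by omega)]
  refine Finset.sum_congr rfl fun j hj => ?_
  rw [avv k hk j (Finset.mem_range.1 hj)]

theorem bit1 {G : S} (hG : IsP G) (U : S) (k : ℕ) (hk : k < 24) :
    (fs U).testBit (pos1 k) = decide (coeff k (U * G) = 1) := by
  apply bz_inj
  rw [bit_fs, bz_decide, coeff_UG hG U k hk]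
  refine Finset.sum_congr rfl fun j hj => ?_
  rw [av1 k hk j (Finset.mem_range.1 hj)]

/-- the number with the first twelve coefficients as digits -/
noncomputable def idx (V : S) : ℕ := Nat.ofBits (fun i : Fin 12 => decide (coeff (i : ℕ) V = 1))

/-- the weight of a series -/
noncomputable def Phi (V : S) : ℕ := q T12 (idx V) 4096

theorem idx_of {V : S} {f o : ℕ} (h : ∀ i < 12, f.testBit (o + i) = decide (coeff i V = 1)) :
    (f >>> o) % 4096 = idx V := by
  apply Nat.eq_of_testBit_eq
  intro i
  rw [show (4096 : ℕ) = 2 ^ 12 by norm_num, Nat.testBit_mod_two_pow, Nat.testBit_shiftRight]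
  unfold idx
  by_cases hi : i < 12
  · rw [h i hi, Nat.testBit_ofBits_lt _ i hi, decide_eq_true hi, Bool.true_and]
  · rw [Nat.testBit_ofBits_ge _ i (by omega), decide_eq_false hi, Bool.false_and]

theorem q_of {V : S} {f o : ℕ} (h : ∀ i < 12, f.testBit (o + i) = decide (coeff i V = 1)) :
    q T12 (f >>> o) 4096 = Phi V := by
  unfold Phi
  rw [← idx_of h]
  change Nat.mod (Nat.shiftRight T12 (Nat.mul 6 ((f >>> o) % 4096))) 64 =
    Nat.mod (Nat.shiftRight T12 (Nat.mul 6 (((f >>> o) % 4096) % 4096))) 64
  rw [Nat.mod_mod]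

theorem Phi_step00 (G U : S) : q T12 (fs U >>> 12) 4096 = Phi (step G 0 0 U) := by
  apply q_of
  intro i hi
  have h := bit0 U (2 * i) (by omega)
  rw [show pos0 (2 * i) = 12 + i by unfold pos0; rw [if_pos (by omega)]; omega] at h
  unfold step
  rw [h, coeff_sec, pow_zero, mul_one, add_zero]

theorem Phi_step10 (G U : S) : q T12 (fs U >>> 24) 4096 = Phi (step G 1 0 U) := by
  apply q_of
  intro i hi
  have h := bit0 U (2 * i + 1) (by omega)
  rw [show pos0 (2 * i + 1) = 24 + i by unfold pos0; rw [if_neg (by omega)]; omega] at h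
  unfold step
  rw [h, coeff_sec, pow_zero, mul_one]

theorem Phi_step01 {G : S} (hG : IsP G) (U : S) :
    q T12 (fs U >>> 36) 4096 = Phi (step G 0 1 U) := by
  apply q_of
  intro i hi
  have h := bit1 hG U (2 * i) (by omega)
  rw [show pos1 (2 * i) = 36 + i by unfold pos1; rw [if_pos (by omega)]; omega] at h
  unfold step
  rw [h, coeff_sec, pow_one, add_zero]

theorem Phi_step11 {G : S} (hG : IsP G) (U : S) :
    q T12 (fs U >>> 48) 4096 = Phi (step G 1 1 U) := by
  apply q_of
  intro i hi
  have h := bit1 hG U (2 * i + 1) (by omega)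
  rw [show pos1 (2 * i + 1) = 48 + i by unfold pos1; rw [if_neg (by omega)]; omega] at h
  unfold step
  rw [h, coeff_sec, pow_one]

theorem Phi_self (U : S) : q T12 (fs U) 4096 = Phi U := by
  have h := q_of (V := U) (f := fs U) (o := 0) (fun i hi => by rw [zero_add]; exact bitv U i hi)
  rw [Nat.shiftRight_zero] at h
  exact h

/-- the inequalities between the weights -/
theorem weights {G : S} (hG : IsP G) (U : S) :
    Phi U ≤ Phi (step G 0 0 U) + Phi (step G 1 0 U) ∧
    Phi U ≤ Phi (step G 0 1 U) + Phi (step G 1 1 U) ∧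
    57 * (Phi U * Phi U) ≤ 20 * ((Phi (step G 0 0 U) + Phi (step G 1 0 U)) *
      (Phi (step G 0 1 U) + Phi (step G 1 1 U))) := by
  have h := fin_all (fun j => decide (coeff j U = 1))
  change fin (fs U) at h
  unfold fin at h
  rw [Phi_self, Phi_step00 G, Phi_step10 G, Phi_step01 hG, Phi_step11 hG] at h
  exact h

theorem Phi_le (U : S) : Phi U ≤ 63 := by
  unfold Phi q
  have : Nat.mod (Nat.shiftRight T12 (Nat.mul 6 (Nat.mod (idx U) 4096))) 64 < 64 :=
    Nat.mod_lt _ (by norm_num)
  omega

theorem q_all : (List.range 4096).all (fun x => x == 0 || Nat.ble 1 (q T12 x 4096)) = true := by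
  decide +kernel

theorem q_pos : ∀ x < 4096, x ≠ 0 → 1 ≤ q T12 x 4096 := by
  intro x hx h0
  have h := List.all_eq_true.1 q_all x (List.mem_range.2 hx)
  rw [Bool.or_eq_true, beq_iff_eq] at h
  rcases h with h | h
  · exact absurd h h0
  · exact Nat.le_of_ble_eq_true h

theorem q_zero : q T12 0 4096 = 0 := by
  decide +kernel

/-- some coefficient with index below 12 is not zero -/
def Gd (U : S) : Prop := ∃ i < 12, coeff i U ≠ 0

theorem idx_lt (U : S) : idx U < 4096 := by
  unfold idx
  exact Nat.ofBits_lt_two_pow _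

theorem Gd_of_Phi {U : S} (h : Phi U ≠ 0) : Gd U := by
  by_contra hne
  apply h
  unfold Phi
  have h0 : idx U = 0 := by
    apply Nat.eq_of_testBit_eq
    intro i
    rw [Nat.zero_testBit]
    unfold idx
    by_cases hi : i < 12
    · rw [Nat.testBit_ofBits_lt _ i hi]
      simp only [decide_eq_false_iff_not]
      intro h1
      exact hne ⟨i, hi, by rw [h1]; exact one_ne_zero⟩
    · rw [Nat.testBit_ofBits_ge _ i (by omega)]
  rw [h0, q_zero]

theorem Phi_pos {U : S} (h : coeff 0 U = 1) : 1 ≤ Phi U := by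
  unfold Phi
  apply q_pos _ (idx_lt U)
  intro h0
  have h1 : (idx U).testBit 0 = decide (coeff 0 U = 1) := by
    unfold idx
    rw [Nat.testBit_ofBits_lt _ 0 (by norm_num)]
  rw [h0, h, Nat.zero_testBit] at h1
  simp at h1

end Pool.Agent.K7.H72.MT
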