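import Pool.Agent.K7.H72.MT.D

set_option autoImplicit false

/-!
# Growth of the total weight
-/

namespace Pool.Agent.K7.H72.MT

open PowerSeries Finset

/-- a series together with a sequence of forbidden values and a set of exponents -/
abbrev El := S × (ℕ → ZMod 2) × (ℕ → Prop)

/-- the two sections of all elements -/
noncomputable def ch (G : S) (e : ℕ) (L : List El) : List El :=
  L.flatMap fun x => [(step G 0 e x.1, fun n => x.2.1 (2 * n), fun n => x.2.2 (2 * n)),
    (step G 1 e x.1, fun n => x.2.1 (2 * n + 1), fun n => x.2.2 (2 * n + 1))]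

/-- the elements after `k` steps, for the digits of `t` -/
noncomputable def desc (G : S) : ℕ → List El → ℕ → List El
  | 0, L, _ => L
  | k + 1, L, t => desc G k (ch G (t % 2) L) (t / 2)

/-- the total weight -/
noncomputable def W (L : List El) : ℕ := (L.map fun x => Phi x.1).sum

/-- the number of the elements with positive weight -/
noncomputable def gd (L : List El) : ℕ := (L.map fun x => if Phi x.1 = 0 then 0 else 1).sum

open scoped Classical in
/-- the number of the `n < X` in the set at which the coefficient of `x G ^ t` is not the forbidden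
one -/
noncomputable def N1 (G : S) (X : ℕ) (x : El) (t : ℕ) : ℕ :=
  #{n ∈ range X | x.2.2 n ∧ coeff n (x.1 * G ^ t) ≠ x.2.1 n}

/-- the sum of these numbers -/
noncomputable def NN (G : S) (X : ℕ) (L : List El) (t : ℕ) : ℕ := (L.map fun x => N1 G X x t).sum

theorem sum_split {M : Type*} [AddCommMonoid M] (f : ℕ → M) (n : ℕ) :
    ∑ t ∈ range (2 * n), f t = ∑ t ∈ range n, f (2 * t) + ∑ t ∈ range n, f (2 * t + 1) := by
  induction n with
  | zero => simp
  | succ n ih =>
    rw [mul_add, mul_one, sum_range_succ, sum_range_succ, ih, sum_range_succ, sum_range_succ]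
    abel

theorem card_split (P : ℕ → Prop) [DecidablePred P] (n : ℕ) :
    #{t ∈ range (2 * n) | P t} = #{t ∈ range n | P (2 * t)} + #{t ∈ range n | P (2 * t + 1)} := by
  rw [card_filter, card_filter, card_filter]
  exact sum_split _ n

theorem W_cons (x : El) (L : List El) : W (x :: L) = Phi x.1 + W L := by
  simp [W]

theorem W_ch_cons (G : S) (e : ℕ) (x : El) (L : List El) :
    W (ch G e (x :: L)) = (Phi (step G 0 e x.1) + Phi (step G 1 e x.1)) + W (ch G e L) := by
  simp [W, ch, add_assoc]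

theorem cs {p P a A b B : ℕ} (h1 : 57 * (p * p) ≤ 20 * (a * b)) (h2 : 57 * (P * P) ≤ 20 * (A * B)) :
    57 * ((p + P) * (p + P)) ≤ 20 * ((a + A) * (b + B)) := by
  have h3 : (57 * (p * P)) ^ 2 ≤ (10 * (a * B + A * b)) ^ 2 := by
    calc (57 * (p * P)) ^ 2 = (57 * (p * p)) * (57 * (P * P)) := by ring
      _ ≤ (20 * (a * b)) * (20 * (A * B)) := Nat.mul_le_mul h1 h2
      _ = 100 * (4 * ((a * B) * (A * b))) := by ring
      _ ≤ 100 * (a * B + A * b) ^ 2 := by
          have : 4 * ((a * B) * (A * b)) ≤ (a * B + A * b) ^ 2 := by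
            zify
            nlinarith [sq_nonneg ((a : ℤ) * B - A * b)]
          omega
      _ = (10 * (a * B + A * b)) ^ 2 := by ring
  have h4 : 57 * (p * P) ≤ 10 * (a * B + A * b) := (Nat.pow_le_pow_iff_left (by norm_num)).1 h3
  nlinarith

theorem W_ch {G : S} (hG : IsP G) (L : List El) :
    W L ≤ W (ch G 0 L) ∧ W L ≤ W (ch G 1 L) ∧
      57 * (W L * W L) ≤ 20 * (W (ch G 0 L) * W (ch G 1 L)) := by
  induction L with
  | nil => simp [W, ch]
  | cons x L ih =>
    rw [W_cons, W_ch_cons, W_ch_cons]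
    obtain ⟨h1, h2, h3⟩ := weights hG x.1
    exact ⟨by omega, by omega, cs h3 ih.2.2⟩

theorem W_le_gd (L : List El) : W L ≤ 63 * gd L := by
  induction L with
  | nil => simp [W]
  | cons x L ih =>
    have h1 := Phi_le x.1
    have h2 : gd (x :: L) = (if Phi x.1 = 0 then 0 else 1) + gd L := by
      simp [gd]
    rw [W_cons, h2]
    split_ifs with h
    · omega
    · omega

theorem N1_split (G : S) (X : ℕ) (x : El) (t : ℕ) :
    N1 G (2 * X) x t =
      N1 G X (step G 0 (t % 2) x.1, fun n => x.2.1 (2 * n), fun n => x.2.2 (2 * n)) (t / 2) +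
      N1 G X (step G 1 (t % 2) x.1, fun n => x.2.1 (2 * n + 1), fun n => x.2.2 (2 * n + 1))
        (t / 2) := by
  classical
  unfold N1
  rw [card_split]
  have h0 : ∀ n, coeff (2 * n) (x.1 * G ^ t) =
      coeff n (step G 0 (t % 2) x.1 * G ^ (t / 2)) := by
    intro n
    rw [coeff_step, Nat.mul_div_cancel_left _ (by norm_num), Nat.mul_mod_right]
  have h1 : ∀ n, coeff (2 * n + 1) (x.1 * G ^ t) =
      coeff n (step G 1 (t % 2) x.1 * G ^ (t / 2)) := by
    intro n
    rw [coeff_step, show (2 * n + 1) / 2 = n by omega, show (2 * n + 1) % 2 = 1 by omega]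
  simp only [h0, h1]

theorem NN_split (G : S) (X : ℕ) (L : List El) (t : ℕ) :
    NN G (2 * X) L t = NN G X (ch G (t % 2) L) (t / 2) := by
  induction L with
  | nil => simp [NN, ch]
  | cons x L ih =>
    have h1 : NN G (2 * X) (x :: L) t = N1 G (2 * X) x t + NN G (2 * X) L t := by
      simp [NN]
    rw [h1, ih, N1_split]
    simp [NN, ch, add_assoc]

theorem NN_desc (G : S) (X k : ℕ) : ∀ (L : List El) (t : ℕ),
    NN G (2 ^ k * X) L t = NN G X (desc G k L t) (t / 2 ^ k) := by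
  induction k with
  | zero =>
    intro L t
    simp [desc]
  | succ k ih =>
    intro L t
    rw [pow_succ', mul_assoc, NN_split, ih, desc, Nat.div_div_eq_div_mul]

theorem one_step {θ m a b : ℝ} (hθ : 0 ≤ θ) (hm : 0 < m) (ha : m ≤ a) (hb : m ≤ b)
    (h : 57 * (m * m) ≤ 20 * (a * b)) :
    a ^ (-θ) + b ^ (-θ) ≤ (1 + (20 / 57 : ℝ) ^ θ) * m ^ (-θ) := by
  have ha0 : 0 < a := hm.trans_le ha
  have hb0 : 0 < b := hm.trans_le hb
  have h1 : a ^ (-θ) ≤ m ^ (-θ) := Real.rpow_le_rpow_of_nonpos hm ha (by linarith)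
  have h2 : b ^ (-θ) ≤ m ^ (-θ) := Real.rpow_le_rpow_of_nonpos hm hb (by linarith)
  have hr : 0 < m ^ (-θ) := Real.rpow_pos_of_pos hm _
  have h3 : a ^ (-θ) * b ^ (-θ) ≤ (20 / 57 : ℝ) ^ θ * (m ^ (-θ) * m ^ (-θ)) := by
    rw [← Real.mul_rpow ha0.le hb0.le, ← Real.mul_rpow hm.le hm.le]
    have h4 : (20 / 57 : ℝ) ^ θ = (57 / 20 : ℝ) ^ (-θ) := by
      rw [Real.rpow_neg (by norm_num), ← Real.inv_rpow (by norm_num)]
      norm_num
    rw [h4, ← Real.mul_rpow (by norm_num) (by positivity)]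
    exact Real.rpow_le_rpow_of_nonpos (by positivity) (by linarith) (by linarith)
  have h5 : 0 ≤ (m ^ (-θ) - a ^ (-θ)) * (m ^ (-θ) - b ^ (-θ)) :=
    mul_nonneg (by linarith) (by linarith)
  have h6 : m ^ (-θ) * (a ^ (-θ) + b ^ (-θ)) ≤ m ^ (-θ) * ((1 + (20 / 57 : ℝ) ^ θ) * m ^ (-θ)) := by
    nlinarith
  exact le_of_mul_le_mul_left h6 hr

theorem moment {G : S} (hG : IsP G) {θ : ℝ} (hθ : 0 ≤ θ) (k : ℕ) : ∀ L : List El, 0 < W L →
    ∑ t ∈ range (2 ^ k), (W (desc G k L t) : ℝ) ^ (-θ) ≤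
      (1 + (20 / 57 : ℝ) ^ θ) ^ k * (W L : ℝ) ^ (-θ) := by
  induction k with
  | zero =>
    intro L _
    simp [desc]
  | succ k ih =>
    intro L hL
    rw [pow_succ', sum_split]
    have h0 : ∀ t, desc G (k + 1) L (2 * t) = desc G k (ch G 0 L) t := by
      intro t
      rw [desc, Nat.mul_div_cancel_left _ (by norm_num), Nat.mul_mod_right]
    have h1 : ∀ t, desc G (k + 1) L (2 * t + 1) = desc G k (ch G 1 L) t := by
      intro t
      rw [desc, show (2 * t + 1) / 2 = t by omega, show (2 * t + 1) % 2 = 1 by omega]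
    simp only [h0, h1]
    obtain ⟨g1, g2, g3⟩ := W_ch hG L
    have e1 := ih (ch G 0 L) (by omega)
    have e2 := ih (ch G 1 L) (by omega)
    have e3 := one_step (θ := θ) (m := W L) (a := W (ch G 0 L)) (b := W (ch G 1 L)) hθ
      (by exact_mod_cast hL) (by exact_mod_cast g1) (by exact_mod_cast g2) (by exact_mod_cast g3)
    have hρ : 0 ≤ (1 + (20 / 57 : ℝ) ^ θ) ^ k := by positivity
    calc _ ≤ (1 + (20 / 57 : ℝ) ^ θ) ^ k * (W (ch G 0 L) : ℝ) ^ (-θ) +
          (1 + (20 / 57 : ℝ) ^ θ) ^ k * (W (ch G 1 L) : ℝ) ^ (-θ) := add_le_add e1 e2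
      _ = (1 + (20 / 57 : ℝ) ^ θ) ^ k * ((W (ch G 0 L) : ℝ) ^ (-θ) + (W (ch G 1 L) : ℝ) ^ (-θ)) := by
          ring
      _ ≤ (1 + (20 / 57 : ℝ) ^ θ) ^ k * ((1 + (20 / 57 : ℝ) ^ θ) * (W L : ℝ) ^ (-θ)) :=
          mul_le_mul_of_nonneg_left e3 hρ
      _ = _ := by rw [pow_succ]; ring

theorem W_desc_pos {G : S} (hG : IsP G) (k : ℕ) : ∀ (L : List El) (t : ℕ), 0 < W L →
    0 < W (desc G k L t) := by
  induction k with
  | zero =>
    intro L t h
    exact h
  | succ k ih =>
    intro L t h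
    rw [desc]
    apply ih
    obtain ⟨g1, g2, -⟩ := W_ch hG L
    rcases Nat.mod_two_eq_zero_or_one t with h0 | h0
    · rw [h0]
      omega
    · rw [h0]
      omega

/-- the number of the `t` for which the number of the good elements is small -/
theorem few {G : S} (hG : IsP G) {θ : ℝ} (hθ : 0 ≤ θ) (k : ℕ) (L : List El) (hL : 0 < W L)
    {B : ℝ} (hB : 0 < B) :
    (#{t ∈ range (2 ^ k) | (gd (desc G k L t) : ℝ) < B} : ℝ) ≤
      (63 * B) ^ θ * (1 + (20 / 57 : ℝ) ^ θ) ^ k := by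
  have h1 := moment hG hθ k L hL
  have hW1 : (W L : ℝ) ^ (-θ) ≤ 1 :=
    Real.rpow_le_one_of_one_le_of_nonpos (by exact_mod_cast hL) (by linarith)
  have h2 : (#{t ∈ range (2 ^ k) | (gd (desc G k L t) : ℝ) < B} : ℝ) * (63 * B) ^ (-θ) ≤
      ∑ t ∈ range (2 ^ k), (W (desc G k L t) : ℝ) ^ (-θ) := by
    calc (#{t ∈ range (2 ^ k) | (gd (desc G k L t) : ℝ) < B} : ℝ) * (63 * B) ^ (-θ) =
        ∑ t ∈ range (2 ^ k) with (gd (desc G k L t) : ℝ) < B, (63 * B) ^ (-θ) := by
          rw [sum_const, nsmul_eq_mul]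
      _ ≤ ∑ t ∈ range (2 ^ k) with (gd (desc G k L t) : ℝ) < B, (W (desc G k L t) : ℝ) ^ (-θ) := by
          refine sum_le_sum fun t ht => ?_
          rw [mem_filter] at ht
          have hpos := W_desc_pos hG k L t hL
          have hle : (W (desc G k L t) : ℝ) ≤ 63 * gd (desc G k L t) := by
            exact_mod_cast W_le_gd _
          exact Real.rpow_le_rpow_of_nonpos (by exact_mod_cast hpos) (by linarith [ht.2])
            (by linarith)
      _ ≤ ∑ t ∈ range (2 ^ k), (W (desc G k L t) : ℝ) ^ (-θ) := by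
          refine sum_le_sum_of_subset_of_nonneg (filter_subset _ _) fun t _ _ => ?_
          positivity
  have hb : 0 < (63 * B) ^ θ := by positivity
  have h3 : (63 * B) ^ (-θ) = ((63 * B) ^ θ)⁻¹ := Real.rpow_neg (by positivity) _
  rw [h3] at h2
  have h4 : (#{t ∈ range (2 ^ k) | (gd (desc G k L t) : ℝ) < B} : ℝ) * ((63 * B) ^ θ)⁻¹ ≤
      (1 + (20 / 57 : ℝ) ^ θ) ^ k := by
    refine (h2.trans h1).trans ?_
    exact mul_le_of_le_one_right (by positivity) hW1
  rw [mul_inv_le_iff₀ hb] at h4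
  linarith

end Pool.Agent.K7.H72.MT
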