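import Pool.Agent.K7.H72.MT.F

set_option autoImplicit false

/-!
# The number of the exceptional `t`
-/

namespace Pool.Agent.K7.H72.MT

open PowerSeries Finset

theorem exp_le {x : ℝ} (h : |x| ≤ 1) : Real.exp x ≤ 1 + x + x ^ 2 := by
  have := Real.abs_exp_sub_one_sub_id_le h
  have h2 := abs_le.1 this
  linarith [h2.2]

/-- a suitable moment -/
theorem exists_theta : ∃ θ : ℝ, 0 < θ ∧
    (2 : ℝ) ^ (3 / 4 * θ) * (1 + (20 / 57 : ℝ) ^ θ) / 2 < 1 := by
  set a : ℝ := 3 / 4 * Real.log 2 with ha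
  set b : ℝ := Real.log (57 / 20) with hb
  have hl2 : 0 < Real.log 2 := Real.log_pos (by norm_num)
  have hl2' : Real.log 2 ≤ 1 := by
    have := Real.log_le_sub_one_of_pos (show (0 : ℝ) < 2 by norm_num)
    linarith
  have hb2 : b ≤ 2 := by
    have := Real.log_le_sub_one_of_pos (show (0 : ℝ) < 57 / 20 by norm_num)
    rw [hb]
    linarith
  have hab : 2 * a < b := by
    have h1 : Real.log 8 < Real.log ((57 / 20) ^ 2) :=
      Real.log_lt_log (by norm_num) (by norm_num)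
    rw [Real.log_pow, show (8 : ℝ) = 2 ^ 3 by norm_num, Real.log_pow] at h1
    push_cast at h1
    rw [ha, hb]
    linarith
  have ha0 : 0 < a := by positivity
  set δ : ℝ := b - 2 * a with hδ
  have hδ0 : 0 < δ := by linarith
  have hδ2 : δ ≤ 2 := by linarith
  refine ⟨δ / 10, by positivity, ?_⟩
  have e1 : (2 : ℝ) ^ (3 / 4 * (δ / 10)) = Real.exp (a * (δ / 10)) := by
    rw [Real.rpow_def_of_pos (by norm_num), ha]
    congr 1
    ring
  have e2 : (20 / 57 : ℝ) ^ (δ / 10) = Real.exp (-b * (δ / 10)) := by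
    rw [Real.rpow_def_of_pos (by norm_num), hb, show (20 / 57 : ℝ) = (57 / 20)⁻¹ by norm_num,
      Real.log_inv]
  rw [e1, e2, mul_add, mul_one, ← Real.exp_add]
  have x1 : a * (δ / 10) + -b * (δ / 10) = -(b - a) * (δ / 10) := by ring
  rw [x1]
  have g1 := exp_le (x := a * (δ / 10)) (by
    rw [abs_of_pos (by positivity)]
    have : a ≤ 1 := by linarith
    nlinarith)
  have hba : 0 < b - a := by linarith
  have g2 := exp_le (x := -(b - a) * (δ / 10)) (by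
    rw [neg_mul, abs_neg, abs_of_pos (by positivity)]
    nlinarith)
  have a1 : a ≤ 1 := by linarith
  have a2 : a ^ 2 ≤ 1 := by nlinarith
  have b2 : (b - a) ^ 2 ≤ 4 := by nlinarith
  have g3 : a ^ 2 * (δ / 10) ^ 2 + (b - a) ^ 2 * (δ / 10) ^ 2 ≤ 5 * (δ / 10) ^ 2 := by
    nlinarith [sq_nonneg (δ / 10)]
  have g4 : (a * (δ / 10)) ^ 2 + (-(b - a) * (δ / 10)) ^ 2 ≤ 5 * (δ / 10) ^ 2 := by
    refine le_trans (le_of_eq ?_) g3
    ring
  have g5 : a * (δ / 10) + -(b - a) * (δ / 10) = -δ * (δ / 10) := by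
    rw [hδ]
    ring
  nlinarith

theorem NN_single (G : S) (X : ℕ) (x : El) (t : ℕ) : NN G X [x] t = N1 G X x t := by
  simp [NN]

theorem unit_bound (R : ℕ) (hR : 1 ≤ R) : ∃ η : ℝ, 0 < η ∧ ∀ D : ℝ, 0 < D → ∃ C : ℝ, 0 < C ∧
    ∀ G : S, IsP G → ∀ (U : S) (w : ℕ → ZMod 2) (A : ℕ → Prop), coeff 0 U = 1 → Dn R A →
      ∀ K i : ℕ, i ≤ K →
      (#{t ∈ range (2 ^ K) | (N1 G (2 ^ i) (U, w, A) t : ℝ) < D * 2 ^ (3 / 4 * (i : ℝ))} : ℝ) ≤
        C * 2 ^ K * 2 ^ (-η * i) := by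
  obtain ⟨θ, hθ, hκ⟩ := exists_theta
  set ρ : ℝ := 1 + (20 / 57 : ℝ) ^ θ with hρ
  set κ : ℝ := (2 : ℝ) ^ (3 / 4 * θ) * ρ / 2 with hκdef
  have hρ1 : 1 ≤ ρ := by
    rw [hρ]
    have : 0 < (20 / 57 : ℝ) ^ θ := by positivity
    linarith
  have hκ0 : 0 < κ := by positivity
  set lk : ℝ := -Real.logb 2 κ with hlk
  have hlk0 : 0 < lk := by
    have := Real.logb_neg (b := 2) (by norm_num) hκ0 hκ
    linarith
  have hRr : (1 : ℝ) ≤ R := by exact_mod_cast hR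
  set lam : ℝ := (2 ^ R - 1) / 2 ^ R with hlam
  have h2R : (2 : ℝ) ≤ 2 ^ R := by
    calc (2 : ℝ) = 2 ^ 1 := by norm_num
      _ ≤ 2 ^ R := pow_le_pow_right₀ (by norm_num) hR
  have hlam0 : 0 < lam := div_pos (by linarith) (by positivity)
  have hlam1 : lam < 1 := by
    rw [hlam, div_lt_one (by positivity)]
    linarith
  set ll : ℝ := -Real.logb 2 lam with hll
  have hll0 : 0 < ll := by
    have := Real.logb_neg (b := 2) (by norm_num) hlam0 hlam1
    linarith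
  set ζ : ℝ := min (1 / (2 * R)) (lk / (2 * R)) with hζ
  have hζ0 : 0 < ζ := lt_min (by positivity) (by positivity)
  have hζ1 : R * ζ ≤ 1 / 2 := by
    have : ζ ≤ 1 / (2 * R) := min_le_left _ _
    calc R * ζ ≤ R * (1 / (2 * R)) := by gcongr
      _ = 1 / 2 := by field_simp
  have hζ2 : R * ζ ≤ lk / 2 := by
    have : ζ ≤ lk / (2 * R) := min_le_right _ _
    calc R * ζ ≤ R * (lk / (2 * R)) := by gcongr
      _ = lk / 2 := by field_simp
  set η : ℝ := min (lk / 2) (ζ * ll) with hη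
  have hη0 : 0 < η := lt_min (by positivity) (by positivity)
  have hη1 : η ≤ lk / 2 := min_le_left _ _
  have hη2 : η ≤ ζ * ll := min_le_right _ _
  have hκ2 : κ = (2 : ℝ) ^ (-lk) := by
    rw [hlk, neg_neg, Real.rpow_logb (by norm_num) (by norm_num) hκ0]
  have hlam2 : lam = (2 : ℝ) ^ (-ll) := by
    rw [hll, neg_neg, Real.rpow_logb (by norm_num) (by norm_num) hlam0]
  refine ⟨η, hη0, ?_⟩
  intro D hD
  set C1 : ℝ := (63 * (2 ^ R * D + 1)) ^ θ with hC1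
  have hC10 : 0 < C1 := by positivity
  set i0 : ℕ := 8 * R + 10 with hi0
  refine ⟨2 ^ (4 * R + 1) * C1 + 1 + 2 ^ (η * (i0 : ℝ)), by positivity, ?_⟩
  intro G hG U w A hU hA K i hiK
  rcases Nat.lt_or_ge i i0 with hi | hi
  · have h1 : (#{t ∈ range (2 ^ K) | (N1 G (2 ^ i) (U, w, A) t : ℝ) <
        D * 2 ^ (3 / 4 * (i : ℝ))} : ℝ) ≤ 2 ^ K := by
      have := card_filter_le (range (2 ^ K))
        (fun t => (N1 G (2 ^ i) (U, w, A) t : ℝ) < D * 2 ^ (3 / 4 * (i : ℝ)))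
      rw [card_range] at this
      exact_mod_cast this
    have h2 : (1 : ℝ) ≤ 2 ^ (η * (i0 : ℝ)) * 2 ^ (-η * (i : ℝ)) := by
      rw [← Real.rpow_add (by norm_num)]
      apply Real.one_le_rpow (by norm_num)
      have h3 : (i : ℝ) ≤ i0 := by exact_mod_cast hi.le
      nlinarith
    calc _ ≤ (2 : ℝ) ^ K := h1
      _ ≤ 2 ^ K * (2 ^ (η * (i0 : ℝ)) * 2 ^ (-η * (i : ℝ))) :=
          le_mul_of_one_le_right (by positivity) h2
      _ = 2 ^ (η * (i0 : ℝ)) * 2 ^ K * 2 ^ (-η * (i : ℝ)) := by ring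
      _ ≤ _ := by
          gcongr
          have : 0 < 2 ^ (4 * R + 1) * C1 := by positivity
          linarith
  · have hi0r : (8 * (R : ℝ) + 10) ≤ i := by exact_mod_cast hi
    set J : ℕ := ⌊ζ * i⌋₊ + 4 with hJ
    have hJle : (J : ℝ) ≤ ζ * i + 4 := by
      rw [hJ]
      push_cast
      have := Nat.floor_le (a := ζ * i) (by positivity)
      linarith
    have hJge : ζ * i ≤ J := by
      rw [hJ]
      push_cast
      have := (Nat.lt_floor_add_one (ζ * (i : ℝ))).le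
      linarith
    have hRJ : R * J + 1 ≤ i := by
      have h1 : (R : ℝ) * J + 1 ≤ i := by
        have h2 : (R : ℝ) * J ≤ R * (ζ * i + 4) := by gcongr
        have h3 : (R : ℝ) * (ζ * i + 4) = (R * ζ) * i + 4 * R := by ring
        have h4 : (R * ζ) * (i : ℝ) ≤ 1 / 2 * i := by gcongr
        linarith
      exact_mod_cast h1
    have hRJ4 : 4 ≤ R * J := by
      calc 4 ≤ J := by omega
        _ = 1 * J := (one_mul _).symm
        _ ≤ R * J := Nat.mul_le_mul_right _ hR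
    obtain ⟨k, hk⟩ : ∃ k, k + (R * J + 1) = i := ⟨i - (R * J + 1), by omega⟩
    obtain ⟨Z, hZ⟩ : ∃ Z, k + (R * J + Z) = K := ⟨K - i + 1, by omega⟩
    set B : ℕ := ⌈2 ^ R * (D * 2 ^ (3 / 4 * (i : ℝ)))⌉₊ with hB
    have hBpos : (0 : ℝ) < B := by
      have : (0 : ℝ) < 2 ^ R * (D * 2 ^ (3 / 4 * (i : ℝ))) := by positivity
      exact this.trans_le (Nat.le_ceil _)
    have hXi : 2 ^ k * 2 ^ (R * J + 1) = 2 ^ i := by
      rw [← pow_add, hk]
    have hX : 12 + 2 ^ (R * J) ≤ 2 ^ (R * J + 1) := by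
      have h1 : 2 ^ 4 ≤ 2 ^ (R * J) := Nat.pow_le_pow_right (by norm_num) hRJ4
      rw [pow_succ 2 (R * J)]
      omega
    have hAD : AD R [((U, w, A) : El)] := by
      intro x hx
      rw [List.mem_singleton] at hx
      rw [hx]
      exact hA
    have hcount := count hG J Z (2 ^ (R * J + 1)) B hX k [(U, w, A)] hAD
    rw [hXi, hZ] at hcount
    have hWpos : 0 < W [(U, w, A)] := by
      have := Phi_pos hU
      simp only [W, List.map_cons, List.map_nil, List.sum_cons, List.sum_nil, add_zero]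
      omega
    have hfew := few hG hθ.le k [(U, w, A)] hWpos hBpos
    have hsub : (#{t ∈ range (2 ^ K) | (N1 G (2 ^ i) (U, w, A) t : ℝ) <
        D * 2 ^ (3 / 4 * (i : ℝ))} : ℝ) ≤
        (#{t ∈ range (2 ^ K) | 2 ^ R * NN G (2 ^ i) [(U, w, A)] t < B} : ℝ) := by
      have : #{t ∈ range (2 ^ K) | (N1 G (2 ^ i) (U, w, A) t : ℝ) < D * 2 ^ (3 / 4 * (i : ℝ))} ≤
          #{t ∈ range (2 ^ K) | 2 ^ R * NN G (2 ^ i) [(U, w, A)] t < B} := by
        refine card_le_card fun t ht => ?_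
        rw [mem_filter] at ht ⊢
        refine ⟨ht.1, ?_⟩
        rw [NN_single]
        have h1 := ht.2
        have h2 : (2 ^ R * N1 G (2 ^ i) (U, w, A) t : ℝ) < B := by
          calc (2 ^ R * N1 G (2 ^ i) (U, w, A) t : ℝ) < 2 ^ R * (D * 2 ^ (3 / 4 * (i : ℝ))) := by
                gcongr
            _ ≤ B := Nat.le_ceil _
        exact_mod_cast h2
      exact_mod_cast this
    have hcount' : (#{t ∈ range (2 ^ K) | 2 ^ R * NN G (2 ^ i) [(U, w, A)] t < B} : ℝ) ≤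
        2 ^ (R * J + Z) * (#{t ∈ range (2 ^ k) | gd (desc G k [(U, w, A)] t) < B} : ℝ) +
          2 ^ k * (2 ^ Z * (2 ^ R - 1) ^ J) := by
      have h1 : ((2 ^ R - 1 : ℕ) : ℝ) = 2 ^ R - 1 := by
        rw [Nat.cast_sub Nat.one_le_two_pow]
        norm_num
      rw [← h1]
      exact_mod_cast hcount
    have hfew' : (#{t ∈ range (2 ^ k) | gd (desc G k [(U, w, A)] t) < B} : ℝ) ≤
        (63 * (B : ℝ)) ^ θ * ρ ^ k := by
      have he : {t ∈ range (2 ^ k) | gd (desc G k [(U, w, A)] t) < B} =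
          {t ∈ range (2 ^ k) | (gd (desc G k [(U, w, A)] t) : ℝ) < (B : ℝ)} := by
        ext t
        rw [mem_filter, mem_filter, Nat.cast_lt]
      rw [he]
      exact hfew
    have hBle : (63 * (B : ℝ)) ^ θ ≤ C1 * 2 ^ (3 / 4 * θ * (i : ℝ)) := by
      have h1 : (B : ℝ) ≤ (2 ^ R * D + 1) * 2 ^ (3 / 4 * (i : ℝ)) := by
        have h2 : (B : ℝ) ≤ 2 ^ R * (D * 2 ^ (3 / 4 * (i : ℝ))) + 1 :=
          (Nat.ceil_lt_add_one (by positivity)).le
        have h3 : (1 : ℝ) ≤ 2 ^ (3 / 4 * (i : ℝ)) :=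
          Real.one_le_rpow (by norm_num) (by positivity)
        calc (B : ℝ) ≤ 2 ^ R * (D * 2 ^ (3 / 4 * (i : ℝ))) + 1 := h2
          _ ≤ 2 ^ R * (D * 2 ^ (3 / 4 * (i : ℝ))) + 2 ^ (3 / 4 * (i : ℝ)) := by linarith
          _ = _ := by ring
      calc (63 * (B : ℝ)) ^ θ ≤ (63 * ((2 ^ R * D + 1) * 2 ^ (3 / 4 * (i : ℝ)))) ^ θ := by
            gcongr
        _ = C1 * 2 ^ (3 / 4 * θ * (i : ℝ)) := by
            rw [← mul_assoc, Real.mul_rpow (by positivity) (by positivity), hC1,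
              ← Real.rpow_mul (by norm_num)]
            congr 2
            ring
    have hρk : ρ ^ k ≤ ρ ^ i := pow_le_pow_right₀ hρ1 (by omega)
    have h2RJ : (2 : ℝ) ^ (R * J + 1) ≤ 2 ^ (4 * R + 1) * 2 ^ (R * ζ * (i : ℝ)) := by
      rw [← Real.rpow_natCast 2 (R * J + 1), ← Real.rpow_natCast 2 (4 * R + 1),
        ← Real.rpow_add (by norm_num)]
      apply Real.rpow_le_rpow_of_exponent_le (by norm_num)
      push_cast
      have h2 : (R : ℝ) * J ≤ R * (ζ * i + 4) := by gcongr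
      linarith
    have hkey : κ ^ i * 2 ^ (R * ζ * (i : ℝ)) ≤ (2 : ℝ) ^ (-η * (i : ℝ)) := by
      rw [hκ2, ← Real.rpow_natCast, ← Real.rpow_mul (by norm_num), ← Real.rpow_add (by norm_num)]
      apply Real.rpow_le_rpow_of_exponent_le (by norm_num)
      have h1 : (0 : ℝ) ≤ i := by positivity
      nlinarith
    have hfirst : (63 * (B : ℝ)) ^ θ * ρ ^ k * 2 ^ (R * J + Z) ≤
        2 ^ (4 * R + 1) * C1 * 2 ^ K * 2 ^ (-η * (i : ℝ)) := by
      have e1 : (2 : ℝ) ^ (R * J + Z) * 2 ^ i = 2 ^ K * 2 ^ (R * J + 1) := by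
        rw [← pow_add, ← pow_add]
        congr 1
        omega
      have e2 : κ ^ i = 2 ^ (3 / 4 * θ * (i : ℝ)) * ρ ^ i / 2 ^ i := by
        rw [hκdef, div_pow, mul_pow, ← Real.rpow_natCast ((2 : ℝ) ^ (3 / 4 * θ)) i,
          ← Real.rpow_mul (by norm_num)]
      have e5 : (2 : ℝ) ^ (R * J + Z) = 2 ^ K * 2 ^ (R * J + 1) / 2 ^ i := by
        rw [← e1]
        field_simp
      calc (63 * (B : ℝ)) ^ θ * ρ ^ k * 2 ^ (R * J + Z) ≤
          (C1 * 2 ^ (3 / 4 * θ * (i : ℝ))) * ρ ^ i * 2 ^ (R * J + Z) := by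
            gcongr
        _ = C1 * κ ^ i * 2 ^ K * 2 ^ (R * J + 1) := by
            rw [e2, e5]
            ring
        _ ≤ C1 * κ ^ i * 2 ^ K * (2 ^ (4 * R + 1) * 2 ^ (R * ζ * (i : ℝ))) := by
            gcongr
        _ = 2 ^ (4 * R + 1) * C1 * 2 ^ K * (κ ^ i * 2 ^ (R * ζ * (i : ℝ))) := by ring
        _ ≤ 2 ^ (4 * R + 1) * C1 * 2 ^ K * 2 ^ (-η * (i : ℝ)) := by
            gcongr
    have hsecond : (2 : ℝ) ^ k * (2 ^ Z * (2 ^ R - 1) ^ J) ≤ 2 ^ K * 2 ^ (-η * (i : ℝ)) := by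
      have e1 : (2 : ℝ) ^ k * (2 ^ Z * (2 ^ R - 1) ^ J) = 2 ^ K * lam ^ J := by
        rw [hlam, div_pow, ← hZ, pow_add (2 : ℝ) k (R * J + Z), pow_add (2 : ℝ) (R * J) Z,
          ← pow_mul]
        have h1 : ∀ a b y z : ℝ, z ≠ 0 → a * (b * y) = a * (z * b) * (y / z) := by
          intro a b y z hz
          field_simp
        exact h1 _ _ _ _ (by positivity)
      rw [e1]
      apply mul_le_mul_of_nonneg_left _ (by positivity)
      rw [hlam2, ← Real.rpow_natCast, ← Real.rpow_mul (by norm_num)]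
      apply Real.rpow_le_rpow_of_exponent_le (by norm_num)
      have h1 : (0 : ℝ) ≤ i := by positivity
      have h2 : ll * (ζ * i) ≤ ll * J := by gcongr
      have h3 : η * i ≤ (ζ * ll) * i := by gcongr
      linarith
    have hlast : (0 : ℝ) ≤ 2 ^ (η * (i0 : ℝ)) * (2 ^ K * 2 ^ (-η * (i : ℝ))) := by positivity
    calc (#{t ∈ range (2 ^ K) | (N1 G (2 ^ i) (U, w, A) t : ℝ) < D * 2 ^ (3 / 4 * (i : ℝ))} : ℝ) ≤
        2 ^ (R * J + Z) * (#{t ∈ range (2 ^ k) | gd (desc G k [(U, w, A)] t) < B} : ℝ) +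
          2 ^ k * (2 ^ Z * (2 ^ R - 1) ^ J) := hsub.trans hcount'
      _ ≤ 2 ^ (R * J + Z) * ((63 * (B : ℝ)) ^ θ * ρ ^ k) + 2 ^ k * (2 ^ Z * (2 ^ R - 1) ^ J) := by
          gcongr
      _ ≤ 2 ^ (4 * R + 1) * C1 * 2 ^ K * 2 ^ (-η * (i : ℝ)) + 2 ^ K * 2 ^ (-η * (i : ℝ)) := by
          have : (2 : ℝ) ^ (R * J + Z) * ((63 * (B : ℝ)) ^ θ * ρ ^ k) =
            (63 * (B : ℝ)) ^ θ * ρ ^ k * 2 ^ (R * J + Z) := by ring
          rw [this]
          exact add_le_add hfirst hsecond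
      _ ≤ (2 ^ (4 * R + 1) * C1 + 1 + 2 ^ (η * (i0 : ℝ))) * 2 ^ K * 2 ^ (-η * (i : ℝ)) := by
          linarith

end Pool.Agent.K7.H72.MT
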