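import Pool.Agent.K7.H72.MT.H

set_option autoImplicit false

/-!
# All scales, and large deviations
-/

namespace Pool.Agent.K7.H72.MT

open PowerSeries Finset

/-- `U` without its leading zeros -/
noncomputable def unsh (v : ℕ) (U : S) : S := PowerSeries.mk fun n => coeff (n + v) U

theorem unsh_mul {U : S} {v : ℕ} (hU : ∀ i < v, coeff i U = 0) (H : S) (m : ℕ) :
    coeff (m + v) (U * H) = coeff m (unsh v U * H) := by
  have h : U = X ^ v * unsh v U := by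
    ext n
    rw [coeff_X_pow_mul']
    split_ifs with h
    · rw [unsh, coeff_mk, Nat.sub_add_cancel h]
    · exact hU n (by omega)
  conv_lhs => rw [h, mul_assoc]
  rw [coeff_X_pow_mul]

theorem exists_low {U : S} (hU : ∃ m, coeff m U ≠ 0) :
    ∃ v, (∀ i < v, coeff i U = 0) ∧ coeff 0 (unsh v U) = 1 := by
  classical
  refine ⟨Nat.find hU, fun i hi => ?_, ?_⟩
  · have := Nat.find_min hU hi
    push Not at this
    exact this
  · rw [unsh, coeff_mk, zero_add]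
    exact eq_one_of_ne (Nat.find_spec hU)

theorem N1_unsh {G U : S} {v : ℕ} (hU : ∀ i < v, coeff i U = 0) (w : ℕ → ZMod 2) (A : ℕ → Prop)
    (X Y t : ℕ) (h : X + v ≤ Y) :
    N1 G X (unsh v U, fun m => w (m + v), fun m => A (m + v)) t ≤ N1 G Y (U, w, A) t := by
  classical
  unfold N1
  refine card_le_card_of_injOn (fun m => m + v) ?_ ?_
  · intro m hm
    have hm' := mem_filter.1 hm
    have h1 := mem_range.1 hm'.1
    rw [mem_coe, mem_filter, mem_range]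
    refine ⟨by simp only; omega, hm'.2.1, ?_⟩
    simp only
    rw [unsh_mul hU]
    exact hm'.2.2
  · intro a _ b _ hab
    simp only at hab
    omega

theorem Dn.shift {R : ℕ} {A : ℕ → Prop} (h : Dn R A) (v : ℕ) : Dn R fun m => A (m + v) := by
  intro i u
  obtain ⟨d, h1, h2, h3⟩ := h i (u + v)
  refine ⟨d, h1, h2, ?_⟩
  change A (u + 2 ^ i * d + v)
  rw [add_right_comm]
  exact h3

open scoped Classical in
theorem gen_bound (R : ℕ) (hR : 1 ≤ R) : ∃ η : ℝ, 0 < η ∧ ∀ G : S, IsP G → ∀ U : S,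
    (∃ m, coeff m U ≠ 0) → ∀ (w : ℕ → ZMod 2) (A : ℕ → Prop), Dn R A → ∀ D : ℝ, 0 < D →
    ∃ C : ℝ, 0 < C ∧ ∀ K X₀ : ℕ, 1 ≤ X₀ →
      (#{t ∈ range (2 ^ K) | ∃ x, X₀ ≤ x ∧ x < 2 ^ K ∧
        (N1 G (x + 1) (U, w, A) t : ℝ) < D * (x : ℝ) ^ (3 / 4 : ℝ)} : ℝ) ≤
        C * 2 ^ K / (X₀ : ℝ) ^ η := by
  obtain ⟨η, hη, hmain⟩ := unit_bound R hR
  refine ⟨η, hη, ?_⟩
  intro G hG U hU w A hA D hD
  obtain ⟨C4, hC4, hb⟩ := hmain (4 * D) (by positivity)
  obtain ⟨v, hv0, hv1⟩ := exists_low hU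
  set r : ℝ := (2 : ℝ) ^ (-η) with hr
  have hr0 : 0 < r := by positivity
  have hr1 : r < 1 := Real.rpow_lt_one_of_one_lt_of_neg (by norm_num) (by linarith)
  have h1r : 0 < 1 - r := by linarith
  set M : ℕ := 4 * v + 2 with hM
  refine ⟨4 ^ η * C4 / (1 - r) + (M : ℝ) ^ η, by positivity, ?_⟩
  intro K X₀ hX0
  have hX0r : (0 : ℝ) < (X₀ : ℝ) ^ η := by
    have : (0 : ℝ) < X₀ := by exact_mod_cast hX0
    positivity
  rw [le_div_iff₀ hX0r]
  rcases Nat.lt_or_ge X₀ M with hlt | hge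
  · have h1 : (#{t ∈ range (2 ^ K) | ∃ x, X₀ ≤ x ∧ x < 2 ^ K ∧
        (N1 G (x + 1) (U, w, A) t : ℝ) < D * (x : ℝ) ^ (3 / 4 : ℝ)} : ℝ) ≤ 2 ^ K := by
      have := card_filter_le (range (2 ^ K)) (fun t => ∃ x, X₀ ≤ x ∧ x < 2 ^ K ∧
        (N1 G (x + 1) (U, w, A) t : ℝ) < D * (x : ℝ) ^ (3 / 4 : ℝ))
      rw [card_range] at this
      exact_mod_cast this
    have h2 : (X₀ : ℝ) ^ η ≤ (M : ℝ) ^ η := by
      apply Real.rpow_le_rpow (by positivity) _ hη.le
      exact_mod_cast hlt.le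
    have h3 : 0 ≤ 4 ^ η * C4 / (1 - r) := by positivity
    calc _ ≤ (2 : ℝ) ^ K * (M : ℝ) ^ η := by gcongr
      _ ≤ (4 ^ η * C4 / (1 - r) + (M : ℝ) ^ η) * 2 ^ K := by
          have : (0 : ℝ) < 2 ^ K := by positivity
          nlinarith
  · -- the union over the scales
    set j0 : ℕ := Nat.log 2 X₀ - 1 with hj0
    have hlog1 : 1 ≤ Nat.log 2 X₀ := by
      apply Nat.le_log_of_pow_le (by norm_num)
      omega
    have hsub : ({t ∈ range (2 ^ K) | ∃ x, X₀ ≤ x ∧ x < 2 ^ K ∧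
        (N1 G (x + 1) (U, w, A) t : ℝ) < D * (x : ℝ) ^ (3 / 4 : ℝ)}) ⊆
        (Ico j0 K).biUnion fun j => {t ∈ range (2 ^ K) |
          (N1 G (2 ^ j) (unsh v U, fun m => w (m + v), fun m => A (m + v)) t : ℝ) <
            4 * D * 2 ^ (3 / 4 * (j : ℝ))} := by
      intro t ht
      obtain ⟨htK, x, hx1, hx2, hx3⟩ := mem_filter.1 ht
      rw [mem_biUnion]
      have hx0 : x ≠ 0 := by omega
      have hl1 : 2 ^ Nat.log 2 x ≤ x := Nat.pow_log_le_self 2 hx0
      have hl2 : x < 2 ^ (Nat.log 2 x + 1) := Nat.lt_pow_succ_log_self (by norm_num) x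
      have hlK : Nat.log 2 x < K := by
        apply (Nat.pow_lt_pow_iff_right (a := 2) (by norm_num)).1
        omega
      have hmono : Nat.log 2 X₀ ≤ Nat.log 2 x := Nat.log_mono_right hx1
      obtain ⟨j, hj⟩ : ∃ j, Nat.log 2 x = j + 1 := ⟨Nat.log 2 x - 1, by omega⟩
      rw [hj, pow_succ] at hl1
      rw [hj, pow_succ, pow_succ] at hl2
      refine ⟨j, mem_Ico.2 ⟨by omega, by omega⟩, mem_filter.2 ⟨htK, ?_⟩⟩
      have hle := N1_unsh (G := G) hv0 w A (2 ^ j) (x + 1) t (by omega)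
      have hle' : (N1 G (2 ^ j) (unsh v U, fun m => w (m + v), fun m => A (m + v)) t : ℝ) ≤
          N1 G (x + 1) (U, w, A) t := by exact_mod_cast hle
      refine (hle'.trans_lt hx3).trans_le ?_
      have hxr : (x : ℝ) ≤ 2 ^ ((j : ℝ) + 2) := by
        have : (x : ℝ) ≤ 2 ^ j * 2 * 2 := by exact_mod_cast hl2.le
        rw [Real.rpow_add (by norm_num), Real.rpow_natCast]
        norm_num
        linarith
      calc D * (x : ℝ) ^ (3 / 4 : ℝ) ≤ D * (2 ^ ((j : ℝ) + 2)) ^ (3 / 4 : ℝ) := by gcongr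
        _ = D * (2 ^ (3 / 2 : ℝ) * 2 ^ (3 / 4 * (j : ℝ))) := by
            rw [← Real.rpow_mul (by norm_num), ← Real.rpow_add (by norm_num)]
            congr 2
            ring
        _ ≤ D * (4 * 2 ^ (3 / 4 * (j : ℝ))) := by
            gcongr
            calc (2 : ℝ) ^ (3 / 2 : ℝ) ≤ 2 ^ (2 : ℝ) :=
                  Real.rpow_le_rpow_of_exponent_le (by norm_num) (by norm_num)
              _ = 4 := by norm_num
        _ = 4 * D * 2 ^ (3 / 4 * (j : ℝ)) := by ring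
    have hcard := card_le_card hsub
    have hcard2 := hcard.trans card_biUnion_le
    have hcard3 : (#{t ∈ range (2 ^ K) | ∃ x, X₀ ≤ x ∧ x < 2 ^ K ∧
        (N1 G (x + 1) (U, w, A) t : ℝ) < D * (x : ℝ) ^ (3 / 4 : ℝ)} : ℝ) ≤
        ∑ j ∈ Ico j0 K, C4 * 2 ^ K * r ^ j := by
      calc _ ≤ ((∑ j ∈ Ico j0 K, #{t ∈ range (2 ^ K) |
          (N1 G (2 ^ j) (unsh v U, fun m => w (m + v), fun m => A (m + v)) t : ℝ) <
            4 * D * 2 ^ (3 / 4 * (j : ℝ))} : ℕ) : ℝ) := by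
            exact_mod_cast hcard2
        _ = ∑ j ∈ Ico j0 K, (#{t ∈ range (2 ^ K) |
          (N1 G (2 ^ j) (unsh v U, fun m => w (m + v), fun m => A (m + v)) t : ℝ) <
            4 * D * 2 ^ (3 / 4 * (j : ℝ))} : ℝ) := by
            push_cast
            rfl
        _ ≤ ∑ j ∈ Ico j0 K, C4 * 2 ^ K * r ^ j := by
            refine sum_le_sum fun j hj => ?_
            have h1 := hb G hG (unsh v U) (fun m => w (m + v)) (fun m => A (m + v)) hv1 (hA.shift v) K j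
              (mem_Ico.1 hj).2.le
            refine h1.trans (le_of_eq ?_)
            rw [hr, ← Real.rpow_natCast ((2 : ℝ) ^ (-η)) j, ← Real.rpow_mul (by norm_num)]
    have hgeom : ∑ j ∈ Ico j0 K, r ^ j ≤ r ^ j0 / (1 - r) :=
      geom_sum_Ico_le_of_lt_one hr0.le hr1
    have hrj : r ^ j0 * (X₀ : ℝ) ^ η ≤ 4 ^ η := by
      have h1 : X₀ < 2 ^ (Nat.log 2 X₀ + 1) := Nat.lt_pow_succ_log_self (by norm_num) X₀
      have h2 : (X₀ : ℝ) ≤ 2 ^ ((j0 : ℝ) + 2) := by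
        have h3 : Nat.log 2 X₀ + 1 = j0 + 2 := by omega
        rw [h3] at h1
        have : (X₀ : ℝ) ≤ 2 ^ (j0 + 2) := by exact_mod_cast h1.le
        rw [← Real.rpow_natCast] at this
        push_cast at this
        exact this
      calc r ^ j0 * (X₀ : ℝ) ^ η ≤ r ^ j0 * (2 ^ ((j0 : ℝ) + 2)) ^ η := by gcongr
        _ = 2 ^ (2 * η) := by
            rw [hr, ← Real.rpow_natCast ((2 : ℝ) ^ (-η)) j0, ← Real.rpow_mul (by norm_num),
              ← Real.rpow_mul (by norm_num), ← Real.rpow_add (by norm_num)]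
            congr 1
            ring
        _ = (2 ^ (2 : ℝ)) ^ η := by rw [Real.rpow_mul (by norm_num)]
        _ = 4 ^ η := by norm_num
    calc _ ≤ (∑ j ∈ Ico j0 K, C4 * 2 ^ K * r ^ j) * (X₀ : ℝ) ^ η := by gcongr
      _ = C4 * 2 ^ K * (∑ j ∈ Ico j0 K, r ^ j) * (X₀ : ℝ) ^ η := by
          rw [← mul_sum]
      _ ≤ C4 * 2 ^ K * (r ^ j0 / (1 - r)) * (X₀ : ℝ) ^ η := by gcongr
      _ = C4 * 2 ^ K / (1 - r) * (r ^ j0 * (X₀ : ℝ) ^ η) := by ring
      _ ≤ C4 * 2 ^ K / (1 - r) * 4 ^ η := by gcongr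
      _ = 4 ^ η * C4 / (1 - r) * 2 ^ K := by ring
      _ ≤ (4 ^ η * C4 / (1 - r) + (M : ℝ) ^ η) * 2 ^ K := by
          have : (0 : ℝ) ≤ (M : ℝ) ^ η := by positivity
          gcongr
          linarith

theorem card_mod (P : ℕ → Prop) [DecidablePred P] (k z : ℕ) :
    #{t ∈ range (2 ^ (k + z)) | P (t % 2 ^ k)} ≤ 2 ^ z * #{t ∈ range (2 ^ k) | P t} := by
  have hpos : 0 < 2 ^ k := by positivity
  calc _ ≤ #(range (2 ^ z) ×ˢ {t ∈ range (2 ^ k) | P t}) := by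
        refine card_le_card_of_injOn (fun t => (t / 2 ^ k, t % 2 ^ k)) ?_ ?_
        · intro t ht
          have ht' := mem_filter.1 ht
          have h1 := mem_range.1 ht'.1
          rw [pow_add] at h1
          rw [mem_coe, mem_product]
          refine ⟨mem_range.2 (Nat.div_lt_of_lt_mul h1), mem_filter.2 ⟨mem_range.2
            (Nat.mod_lt _ hpos), ht'.2⟩⟩
        · intro t1 _ t2 _ h
          rw [Prod.mk.injEq] at h
          rw [← Nat.mod_add_div t1 (2 ^ k), ← Nat.mod_add_div t2 (2 ^ k), h.1, h.2]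
    _ = _ := by rw [card_product, card_range]

theorem ld_bound {G : S} (hG : IsP G) {U : S} (hU : ∃ m, coeff m U ≠ 0) {θ : ℝ} (hθ : 0 ≤ θ) :
    ∃ C : ℝ, 0 < C ∧ ∀ K B : ℕ, 1 ≤ B →
      (#{t ∈ range (2 ^ K) | #{n ∈ range (2 ^ K) | coeff n (U * G ^ t) ≠ 0} < B} : ℝ) ≤
        C * (B : ℝ) ^ θ * (1 + (20 / 57 : ℝ) ^ θ) ^ K := by
  obtain ⟨v, hv0, hv1⟩ := exists_low hU
  set ρ : ℝ := 1 + (20 / 57 : ℝ) ^ θ with hρ
  have hρ1 : 1 ≤ ρ := by
    rw [hρ]
    have : 0 < (20 / 57 : ℝ) ^ θ := by positivity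
    linarith
  refine ⟨2 ^ (v + 6) + 32 * 63 ^ θ, by positivity, ?_⟩
  intro K B hB
  have hBθ : (1 : ℝ) ≤ (B : ℝ) ^ θ := Real.one_le_rpow (by exact_mod_cast hB) hθ
  have hρK : (1 : ℝ) ≤ ρ ^ K := one_le_pow₀ hρ1
  have h63 : (0 : ℝ) < 63 ^ θ := by positivity
  rcases Nat.lt_or_ge K (v + 6) with hK | hK
  · have h1 : (#{t ∈ range (2 ^ K) | #{n ∈ range (2 ^ K) | coeff n (U * G ^ t) ≠ 0} < B} : ℝ) ≤
        2 ^ K := by
      have := card_filter_le (range (2 ^ K))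
        (fun t => #{n ∈ range (2 ^ K) | coeff n (U * G ^ t) ≠ 0} < B)
      rw [card_range] at this
      exact_mod_cast this
    have h2 : (2 : ℝ) ^ K ≤ 2 ^ (v + 6) := pow_le_pow_right₀ (by norm_num) hK.le
    have h3 : (0 : ℝ) < 2 ^ (v + 6) := by positivity
    calc _ ≤ (2 : ℝ) ^ (v + 6) := h1.trans h2
      _ = 2 ^ (v + 6) * 1 * 1 := by ring
      _ ≤ (2 ^ (v + 6) + 32 * 63 ^ θ) * (B : ℝ) ^ θ * ρ ^ K := by
          gcongr
          linarith
  · obtain ⟨k, hk⟩ : ∃ k, k + 5 = K := ⟨K - 5, by omega⟩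
    set L : List El := [(unsh v U, fun _ => 0, fun _ => True)] with hL
    have hWpos : 0 < W L := by
      have := Phi_pos hv1
      simp only [hL, W, List.map_cons, List.map_nil, List.sum_cons, List.sum_nil, add_zero]
      omega
    have hL0 : ∀ x ∈ L, x.2 = (fun _ => 0, fun _ => True) := by
      intro x hx
      rw [hL, List.mem_singleton] at hx
      rw [hx]
    have hfew := few hG hθ k L hWpos (B := B) (by exact_mod_cast hB)
    have hsub : #{t ∈ range (2 ^ K) | #{n ∈ range (2 ^ K) | coeff n (U * G ^ t) ≠ 0} < B} ≤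
        #{t ∈ range (2 ^ (k + 5)) | gd (desc G k L (t % 2 ^ k)) < B} := by
      rw [hk]
      refine card_le_card fun t ht => ?_
      rw [mem_filter] at ht ⊢
      refine ⟨ht.1, lt_of_le_of_lt ?_ ht.2⟩
      rw [desc_mod]
      refine (gd_desc_le hG k L t hL0).trans ?_
      rw [hL, NN_single]
      have h2 : 2 ^ k * 12 + v ≤ 2 ^ K := by
        have h3 : v < 2 ^ v := Nat.lt_two_pow_self
        have h4 : 2 ^ v ≤ 2 ^ k := Nat.pow_le_pow_right (by norm_num) (by omega)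
        rw [← hk, pow_add]
        omega
      refine (N1_unsh hv0 (fun _ => 0) (fun _ => True) (2 ^ k * 12) (2 ^ K) t h2).trans (le_of_eq ?_)
      unfold N1
      simp only [true_and]
    have hmod := card_mod (fun t => gd (desc G k L t) < B) k 5
    have hle : (#{t ∈ range (2 ^ K) | #{n ∈ range (2 ^ K) | coeff n (U * G ^ t) ≠ 0} < B} : ℝ) ≤
        2 ^ 5 * (#{t ∈ range (2 ^ k) | gd (desc G k L t) < B} : ℝ) := by
      exact_mod_cast hsub.trans hmod
    have he : {t ∈ range (2 ^ k) | gd (desc G k L t) < B} =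
        {t ∈ range (2 ^ k) | (gd (desc G k L t) : ℝ) < (B : ℝ)} := by
      ext t
      rw [mem_filter, mem_filter, Nat.cast_lt]
    rw [← he] at hfew
    have hρk : ρ ^ k ≤ ρ ^ K := pow_le_pow_right₀ hρ1 (by omega)
    calc _ ≤ 2 ^ 5 * ((63 * (B : ℝ)) ^ θ * ρ ^ k) := hle.trans (by gcongr)
      _ = 32 * 63 ^ θ * (B : ℝ) ^ θ * ρ ^ k := by
          rw [Real.mul_rpow (by norm_num) (by positivity)]
          ring
      _ ≤ (2 ^ (v + 6) + 32 * 63 ^ θ) * (B : ℝ) ^ θ * ρ ^ K := by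
          have : (0 : ℝ) ≤ 2 ^ (v + 6) := by positivity
          gcongr
          linarith

end Pool.Agent.K7.H72.MT
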