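import Pool.Agent.K7.H72.MT.I

set_option autoImplicit false

/-!
# Residue classes modulo powers of two
-/

namespace Pool.Agent.K7.H72.MT

open PowerSeries Finset

/-- the section at `β` modulo `2 ^ b` of `U G ^ t`, without the power of `G` -/
noncomputable def node (G : S) : ℕ → ℕ → ℕ → S → S
  | 0, _, _, U => U
  | b + 1, β, t, U => node G b (β / 2) (t / 2) (step G (β % 2) (t % 2) U)

theorem coeff_node (G : S) (b : ℕ) : ∀ (β t a : ℕ) (U : S), β < 2 ^ b →
    coeff (β + 2 ^ b * a) (U * G ^ t) = coeff a (node G b β t U * G ^ (t / 2 ^ b)) := by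
  induction b with
  | zero =>
    intro β t a U hβ
    rw [pow_zero, Nat.lt_one_iff] at hβ
    subst hβ
    rw [node, pow_zero, zero_add, one_mul, Nat.div_one]
  | succ b ih =>
    intro β t a U hβ
    rw [pow_succ] at hβ
    have h1 : (β + 2 ^ (b + 1) * a) % 2 = β % 2 := by
      rw [pow_succ', mul_assoc, Nat.add_mul_mod_self_left]
    have h2 : (β + 2 ^ (b + 1) * a) / 2 = β / 2 + 2 ^ b * a := by
      rw [pow_succ', mul_assoc, Nat.add_mul_div_left _ _ (by norm_num)]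
    rw [coeff_step, h1, h2, ih (β / 2) (t / 2) a _ (by omega), node, Nat.div_div_eq_div_mul,
      pow_succ']

theorem node_mod (G : S) (b : ℕ) : ∀ (β t : ℕ) (U : S),
    node G b β (t % 2 ^ b) U = node G b β t U := by
  induction b with
  | zero =>
    intro β t U
    rfl
  | succ b ih =>
    intro β t U
    rw [node, node, pow_succ']
    have h1 : t % (2 * 2 ^ b) % 2 = t % 2 := Nat.mod_mul_right_mod _ _ _
    have h2 : t % (2 * 2 ^ b) / 2 = t / 2 % 2 ^ b := Nat.mod_mul_right_div_self _ _ _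
    rw [h1, h2, ih]

open scoped Classical in
/-- the number of the `n ≤ x` in the class and in the set with the right value -/
noncomputable def cnt (G : S) (b β L : ℕ) (U : S) (w : ℕ → ZMod 2) (A : ℕ → Prop) (t x : ℕ) : ℕ :=
  #{n ∈ range (x + 1) | (n + L) % 2 ^ b = β ∧ A (n + L) ∧ coeff (n + L) (U * G ^ t) ≠ w (n + L)}

theorem N1_cnt (G : S) {b β : ℕ} (L : ℕ) (U : S) (w : ℕ → ZMod 2) (A : ℕ → Prop) {t x y : ℕ}
    (hβ : β < 2 ^ b) (hy : β + 2 ^ b * y ≤ x) :
    N1 G (y + 1) (node G b β (t % 2 ^ b) U, fun a => w (β + 2 ^ b * a), fun a => A (β + 2 ^ b * a))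
      (t / 2 ^ b) ≤ L + cnt G b β L U w A t x := by
  classical
  set T : Finset ℕ := {n ∈ range (x + 1) | (n + L) % 2 ^ b = β ∧ A (n + L) ∧
    coeff (n + L) (U * G ^ t) ≠ w (n + L)} with hT
  have hP : 0 < 2 ^ b := by positivity
  have hsub : {a ∈ range (y + 1) | A (β + 2 ^ b * a) ∧
      coeff a (node G b β (t % 2 ^ b) U * G ^ (t / 2 ^ b)) ≠ w (β + 2 ^ b * a)} ⊆
      range L ∪ T.image fun n => (n + L - β) / 2 ^ b := by
    intro a ha
    obtain ⟨h1, h2, h3⟩ := mem_filter.1 ha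
    rw [mem_range] at h1
    rw [mem_union]
    rcases Nat.lt_or_ge a L with h4 | h4
    · exact Or.inl (mem_range.2 h4)
    · right
      rw [mem_image]
      have h5 : a ≤ 2 ^ b * a := Nat.le_mul_of_pos_left _ hP
      have h6 : 2 ^ b * a ≤ 2 ^ b * y := Nat.mul_le_mul_left _ (by omega)
      have h7 : β + 2 ^ b * a - L + L = β + 2 ^ b * a := by omega
      refine ⟨β + 2 ^ b * a - L, ?_, ?_⟩
      · rw [hT, mem_filter, mem_range, h7]
        refine ⟨by omega, ?_, h2, ?_⟩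
        · rw [Nat.add_mul_mod_self_left, Nat.mod_eq_of_lt hβ]
        · rw [coeff_node G b β t a U hβ, ← node_mod]
          exact h3
      · rw [h7, Nat.add_sub_cancel_left, Nat.mul_div_cancel_left _ hP]
  have h1 := (card_le_card hsub).trans (card_union_le _ _)
  have h2 := card_image_le (s := T) (f := fun n => (n + L - β) / 2 ^ b)
  rw [card_range] at h1
  have e1 : N1 G (y + 1) (node G b β (t % 2 ^ b) U, fun a => w (β + 2 ^ b * a),
      fun a => A (β + 2 ^ b * a)) (t / 2 ^ b) = #{a ∈ range (y + 1) | A (β + 2 ^ b * a) ∧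
      coeff a (node G b β (t % 2 ^ b) U * G ^ (t / 2 ^ b)) ≠ w (β + 2 ^ b * a)} := by
    unfold N1
    congr
  have e2 : cnt G b β L U w A t x = #T := by
    unfold cnt
    congr
  rw [e1, e2]
  omega

theorem nat_div_large {P β x : ℕ} (hβ : β < P) (hx : 4 * P ≤ x) :
    β + P * ((x - β) / P) ≤ x ∧ x ≤ 2 * P * ((x - β) / P) := by
  have h1 := Nat.div_add_mod (x - β) P
  have h2 := Nat.mod_lt (x - β) (show 0 < P by omega)
  rw [mul_assoc]
  constructor
  · omega
  · omega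

open scoped Classical in
theorem class_bound (R : ℕ) (hR : 1 ≤ R) : ∃ η : ℝ, 0 < η ∧ ∀ G : S, IsP G → ∀ (U : S)
    (b β t₀ L : ℕ), β < 2 ^ b → (∃ m, coeff m (node G b β t₀ U) ≠ 0) →
    ∀ (w : ℕ → ZMod 2) (A : ℕ → Prop), (Dn R fun a => A (β + 2 ^ b * a)) → ∀ D : ℝ, 0 < D →
    ∃ C : ℝ, 0 < C ∧ ∀ K X₀ : ℕ, 1 ≤ X₀ →
      (#{t ∈ range (2 ^ K) | t % 2 ^ b = t₀ ∧ ∃ x, X₀ ≤ x ∧ x < 2 ^ K ∧
        (cnt G b β L U w A t x : ℝ) < D * (x : ℝ) ^ (3 / 4 : ℝ)} : ℝ) ≤
        C * 2 ^ K / (X₀ : ℝ) ^ η := by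
  obtain ⟨η, hη, hmain⟩ := gen_bound R hR
  refine ⟨η, hη, ?_⟩
  intro G hG U b β t₀ L hβ hU w A hA D hD
  set P : ℕ := 2 ^ b with hP
  have hP0 : 0 < P := by positivity
  set D' : ℝ := (D + L) * (2 * P : ℕ) with hD'
  have hD'0 : 0 < D' := by
    have : (0 : ℝ) < ((2 * P : ℕ) : ℝ) := by exact_mod_cast (by omega : 0 < 2 * P)
    positivity
  obtain ⟨C', hC', hb⟩ := hmain G hG (node G b β t₀ U) hU (fun a => w (β + P * a))
    (fun a => A (β + P * a)) hA D' hD'0
  have h4P : (0 : ℝ) < ((4 * P : ℕ) : ℝ) := by exact_mod_cast (by omega : 0 < 4 * P)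
  refine ⟨(C' + 1) * ((4 * P : ℕ) : ℝ) ^ η, by positivity, ?_⟩
  intro K X₀ hX0
  have hX0p : (0 : ℝ) < X₀ := by exact_mod_cast hX0
  have hX0r : (0 : ℝ) < (X₀ : ℝ) ^ η := by positivity
  rw [le_div_iff₀ hX0r]
  rcases Nat.lt_or_ge X₀ (4 * P) with hlt | hge
  · have h1 : (#{t ∈ range (2 ^ K) | t % P = t₀ ∧ ∃ x, X₀ ≤ x ∧ x < 2 ^ K ∧
        (cnt G b β L U w A t x : ℝ) < D * (x : ℝ) ^ (3 / 4 : ℝ)} : ℝ) ≤ 2 ^ K := by
      have := card_filter_le (range (2 ^ K)) (fun t => t % P = t₀ ∧ ∃ x, X₀ ≤ x ∧ x < 2 ^ K ∧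
        (cnt G b β L U w A t x : ℝ) < D * (x : ℝ) ^ (3 / 4 : ℝ))
      rw [card_range] at this
      exact_mod_cast this
    have h2 : (X₀ : ℝ) ^ η ≤ ((4 * P : ℕ) : ℝ) ^ η :=
      Real.rpow_le_rpow hX0p.le (by exact_mod_cast hlt.le) hη.le
    calc _ ≤ (2 : ℝ) ^ K * ((4 * P : ℕ) : ℝ) ^ η := by gcongr
      _ ≤ (C' + 1) * ((4 * P : ℕ) : ℝ) ^ η * 2 ^ K := by
          have h3 : (0 : ℝ) < 2 ^ K * ((4 * P : ℕ) : ℝ) ^ η := by positivity
          nlinarith
  · set X₁ : ℕ := X₀ / (2 * P) with hX1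
    have hX1le : 2 ≤ X₁ := by
      rw [hX1, Nat.le_div_iff_mul_le (by omega)]
      omega
    have hX1big : X₀ ≤ 4 * P * X₁ := by
      have h1 := Nat.div_add_mod X₀ (2 * P)
      have h2 := Nat.mod_lt X₀ (show 0 < 2 * P by omega)
      rw [← hX1] at h1
      have h3 : 2 * P ≤ 2 * P * X₁ := Nat.le_mul_of_pos_right _ (by omega)
      have h4 : 4 * P * X₁ = 2 * P * X₁ + 2 * P * X₁ := by ring
      omega
    -- the case that the set is empty
    by_cases hne : ∃ t ∈ range (2 ^ K), t % P = t₀ ∧ ∃ x, X₀ ≤ x ∧ x < 2 ^ K ∧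
        (cnt G b β L U w A t x : ℝ) < D * (x : ℝ) ^ (3 / 4 : ℝ)
    swap
    · rw [filter_eq_empty_iff.2 (fun t ht h => hne ⟨t, ht, h⟩), card_empty, Nat.cast_zero, zero_mul]
      positivity
    · have hbK : b ≤ K := by
        obtain ⟨t, -, -, x, h1, h2, -⟩ := hne
        have h3 : 2 ^ b < 2 ^ K := by omega
        exact ((Nat.pow_lt_pow_iff_right (by norm_num)).1 h3).le
      have hKb : 2 ^ K = P * 2 ^ (K - b) := by
        rw [hP, ← pow_add, Nat.add_sub_cancel' hbK]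
      have hcard : #{t ∈ range (2 ^ K) | t % P = t₀ ∧ ∃ x, X₀ ≤ x ∧ x < 2 ^ K ∧
          (cnt G b β L U w A t x : ℝ) < D * (x : ℝ) ^ (3 / 4 : ℝ)} ≤
          #{t ∈ range (2 ^ (K - b)) | ∃ x, X₁ ≤ x ∧ x < 2 ^ (K - b) ∧
            (N1 G (x + 1) (node G b β t₀ U, fun a => w (β + P * a), fun a => A (β + P * a)) t : ℝ) <
              D' * (x : ℝ) ^ (3 / 4 : ℝ)} := by
        refine card_le_card_of_injOn (fun t => t / P) ?_ ?_
        · intro t ht
          obtain ⟨htK, ht0, x, h1, h2, h3⟩ := mem_filter.1 ht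
          rw [mem_range, hKb] at htK
          obtain ⟨g1, g2⟩ := nat_div_large hβ (show 4 * P ≤ x by omega)
          set y : ℕ := (x - β) / P with hy
          rw [mem_coe, mem_filter, mem_range]
          refine ⟨Nat.div_lt_of_lt_mul htK, y, ?_, ?_, ?_⟩
          · rw [hX1]
            exact Nat.div_le_of_le_mul (h1.trans g2)
          · by_contra hcon
            push Not at hcon
            have := Nat.mul_le_mul_left P hcon
            rw [← hKb] at this
            omega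
          · have h4 := N1_cnt G (t := t) L U w A hβ g1
            rw [← hP, ht0] at h4
            have h4' : (N1 G (y + 1) (node G b β t₀ U, fun a => w (β + P * a),
                fun a => A (β + P * a)) (t / P) : ℝ) ≤ L + cnt G b β L U w A t x := by
              exact_mod_cast h4
            have hx1 : (1 : ℝ) ≤ (x : ℝ) ^ (3 / 4 : ℝ) := by
              apply Real.one_le_rpow _ (by norm_num)
              exact_mod_cast hX0.trans h1
            have hxy : (x : ℝ) ^ (3 / 4 : ℝ) ≤ (2 * P : ℕ) * (y : ℝ) ^ (3 / 4 : ℝ) := by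
              calc (x : ℝ) ^ (3 / 4 : ℝ) ≤ (((2 * P : ℕ) : ℝ) * y) ^ (3 / 4 : ℝ) := by
                    apply Real.rpow_le_rpow (by positivity) _ (by norm_num)
                    exact_mod_cast g2
                _ = ((2 * P : ℕ) : ℝ) ^ (3 / 4 : ℝ) * (y : ℝ) ^ (3 / 4 : ℝ) :=
                    Real.mul_rpow (by positivity) (by positivity)
                _ ≤ ((2 * P : ℕ) : ℝ) ^ (1 : ℝ) * (y : ℝ) ^ (3 / 4 : ℝ) := by
                    gcongr
                    · exact_mod_cast (by omega : 1 ≤ 2 * P)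
                    · norm_num
                _ = _ := by rw [Real.rpow_one]
            calc _ ≤ (L : ℝ) + cnt G b β L U w A t x := h4'
              _ < (L : ℝ) + D * (x : ℝ) ^ (3 / 4 : ℝ) := by linarith
              _ ≤ (D + L) * (x : ℝ) ^ (3 / 4 : ℝ) := by
                  have : (0 : ℝ) ≤ L := by positivity
                  nlinarith
              _ ≤ (D + L) * ((2 * P : ℕ) * (y : ℝ) ^ (3 / 4 : ℝ)) := by gcongr
              _ = D' * (y : ℝ) ^ (3 / 4 : ℝ) := by rw [hD']; ring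
        · intro t1 h1 t2 h2 h
          have h1' := (mem_filter.1 (mem_coe.1 h1)).2.1
          have h2' := (mem_filter.1 (mem_coe.1 h2)).2.1
          simp only at h
          rw [← Nat.mod_add_div t1 P, ← Nat.mod_add_div t2 P, h, h1', h2']
      have h1 := hb (K - b) X₁ (by omega)
      have h2 : (#{t ∈ range (2 ^ K) | t % P = t₀ ∧ ∃ x, X₀ ≤ x ∧ x < 2 ^ K ∧
          (cnt G b β L U w A t x : ℝ) < D * (x : ℝ) ^ (3 / 4 : ℝ)} : ℝ) ≤
          C' * 2 ^ (K - b) / (X₁ : ℝ) ^ η := le_trans (by exact_mod_cast hcard) h1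
      have hX1p : (0 : ℝ) < X₁ := by exact_mod_cast (by omega : 0 < X₁)
      have h3 : (X₀ : ℝ) ^ η ≤ ((4 * P : ℕ) : ℝ) ^ η * (X₁ : ℝ) ^ η := by
        rw [← Real.mul_rpow h4P.le hX1p.le]
        exact Real.rpow_le_rpow hX0p.le (by exact_mod_cast hX1big) hη.le
      have h4 : (2 : ℝ) ^ (K - b) ≤ 2 ^ K := pow_le_pow_right₀ (by norm_num) (by omega)
      have h5 : (0 : ℝ) < (X₁ : ℝ) ^ η := by positivity
      calc _ ≤ C' * 2 ^ (K - b) / (X₁ : ℝ) ^ η * (((4 * P : ℕ) : ℝ) ^ η * (X₁ : ℝ) ^ η) := by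
            gcongr
        _ = C' * ((4 * P : ℕ) : ℝ) ^ η * 2 ^ (K - b) := by
            field_simp
        _ ≤ (C' + 1) * ((4 * P : ℕ) : ℝ) ^ η * 2 ^ K := by
            gcongr
            linarith

end Pool.Agent.K7.H72.MT
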