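import Pool.Agent.K7.H72.MT.J
import Pool.Agent.R836.PP.FinB

set_option autoImplicit false

/-!
# The partition generating function, all progressions
-/

namespace Pool.Agent.K7.H72.MT

open PowerSeries Finset

/-- the generating function of the partition numbers modulo 2 -/
noncomputable def P2 : S := PowerSeries.mk fun n => (Fintype.card (Nat.Partition n) : ZMod 2)

/-- the pentagonal numbers below 24 -/
def eb (i : ℕ) : Bool := [0, 1, 2, 5, 7, 12, 15, 22].contains i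

theorem pent_small {k : ℤ} (h : pentagonal k < 24) : -3 ≤ k ∧ k ≤ 4 := by
  have h1 : k * (3 * k - 1) / 2 < 24 := by
    unfold pentagonal at h
    omega
  have h2 : k * (3 * k - 1) < 48 := by omega
  constructor
  · by_contra hk
    push Not at hk
    nlinarith
  · by_contra hk
    push Not at hk
    nlinarith

theorem pent_val : pentagonal 0 = 0 ∧ pentagonal 1 = 1 ∧ pentagonal (-1) = 2 ∧ pentagonal 2 = 5 ∧
    pentagonal (-2) = 7 ∧ pentagonal 3 = 12 ∧ pentagonal (-3) = 15 ∧ pentagonal 4 = 22 := by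
  unfold pentagonal
  norm_num
  exact ⟨rfl, rfl, rfl, rfl, rfl, rfl⟩

theorem coeff_pent_one (k : ℤ) : coeff (pentagonal k) (pentagonalSeries (ZMod 2)) = 1 := by
  rw [coeff_pentagonalSeries_pentagonal]
  rcases Int.units_eq_one_or k.negOnePow with h | h
  · rw [h]
    simp
  · rw [h]
    decide

theorem coeff_pent {i : ℕ} (hi : i < 24) : coeff i (pentagonalSeries (ZMod 2)) = bz (eb i) := by
  obtain ⟨v0, v1, v2, v3, v4, v5, v6, v7⟩ := pent_val
  by_cases h : i ∈ Set.range pentagonal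
  · obtain ⟨k, rfl⟩ := h
    rw [coeff_pent_one]
    obtain ⟨h1, h2⟩ := pent_small hi
    have hk : k = 0 ∨ k = 1 ∨ k = -1 ∨ k = 2 ∨ k = -2 ∨ k = 3 ∨ k = -3 ∨ k = 4 := by omega
    rcases hk with rfl | rfl | rfl | rfl | rfl | rfl | rfl | rfl
    · rw [v0]; decide
    · rw [v1]; decide
    · rw [v2]; decide
    · rw [v3]; decide
    · rw [v4]; decide
    · rw [v5]; decide
    · rw [v6]; decide
    · rw [v7]; decide
  · rw [coeff_pentagonalSeries_eq_zero _ h]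
    have hne : ∀ k, pentagonal k ≠ i := fun k hk => h ⟨k, hk⟩
    have hb : eb i = false := by
      by_contra hcon
      rw [Bool.not_eq_false] at hcon
      unfold eb at hcon
      simp only [List.contains_eq_mem, List.mem_cons, List.not_mem_nil, or_false,
        decide_eq_true_eq] at hcon
      rcases hcon with rfl | rfl | rfl | rfl | rfl | rfl | rfl | rfl
      · exact hne _ v0
      · exact hne _ v1
      · exact hne _ v2
      · exact hne _ v3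
      · exact hne _ v4
      · exact hne _ v5
      · exact hne _ v6
      · exact hne _ v7
    rw [hb]
    rfl

theorem pb_rec : ∀ n < 24, bz (pb n) = (if n = 0 then 1 else 0) +
    ∑ j ∈ range n, bz (eb (j + 1)) * bz (pb (n - (j + 1))) := by
  decide

theorem isP_P2 : IsP P2 := by
  have key : ∀ n < 24, coeff n P2 = bz (pb n) := by
    intro n
    induction n using Nat.strong_induction_on with
    | _ n ih =>
      intro hn
      have h1 : pentagonalSeries (ZMod 2) * P2 = 1 := by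
        rw [mul_comm]
        exact Pool.Agent.H397R2.PP.mk_card_mul_pentagonalSeries (ZMod 2)
      have h2 : coeff n (pentagonalSeries (ZMod 2) * P2) = if n = 0 then 1 else 0 := by
        rw [h1, coeff_one]
      rw [coeff_mul, Finset.Nat.sum_antidiagonal_eq_sum_range_succ
        (fun i j => coeff i (pentagonalSeries (ZMod 2)) * coeff j P2), sum_range_succ',
        Nat.sub_zero] at h2
      have h0 : coeff 0 (pentagonalSeries (ZMod 2)) = 1 := by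
        rw [coeff_pent (by norm_num)]
        decide
      rw [h0, one_mul] at h2
      have h3 : ∑ j ∈ range n, coeff (j + 1) (pentagonalSeries (ZMod 2)) * coeff (n - (j + 1)) P2 =
          ∑ j ∈ range n, bz (eb (j + 1)) * bz (pb (n - (j + 1))) := by
        refine sum_congr rfl fun j hj => ?_
        rw [mem_range] at hj
        rw [coeff_pent (by omega), ih (n - (j + 1)) (by omega) (by omega)]
      rw [h3] at h2
      rw [pb_rec n hn, ← h2]
      have : ∀ a b : ZMod 2, b = a + b + a := by decide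
      exact this _ _
  intro i hi
  rw [key i hi]
  rfl

open Pool.Agent.R836.PP

/-- the sections of the patterns do not vanish -/
theorem node_ne {L : ℕ} (c : Fin (L + 1) → ZMod 2) (hc : c ≠ 0) {b β t₀ : ℕ} (hβ : β < 2 ^ b)
    (ht : t₀ % 2 = 1) (ht2 : t₀ < 2 ^ b) : ∃ m, coeff m (node P2 b β t₀ (CC c)) ≠ 0 := by
  have hP : 0 < 2 ^ b := by positivity
  obtain ⟨ρ, hρ⟩ : ∃ ρ, (ρ + L) % 2 ^ b = β := by
    refine ⟨β + (2 ^ b - L % 2 ^ b), ?_⟩
    have h1 := Nat.mod_lt L hP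
    have h2 := Nat.div_add_mod L (2 ^ b)
    have h3 : β + (2 ^ b - L % 2 ^ b) + L = β + 2 ^ b * (L / 2 ^ b + 1) := by
      rw [mul_add, mul_one]
      omega
    rw [h3, Nat.add_mul_mod_self_left, Nat.mod_eq_of_lt hβ]
  obtain ⟨X0, hX0⟩ := odd_all t₀ b ht 0 c hc ρ
  have h1 := hX0 (max X0 3) (le_max_left _ _)
  have h2 : (0 : ℝ) < Real.sqrt ((max X0 3 : ℕ) : ℝ) *
      Real.log (Real.log ((max X0 3 : ℕ) : ℝ)) ^ 0 / Real.log ((max X0 3 : ℕ) : ℝ) := by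
    have h3 : (3 : ℝ) ≤ ((max X0 3 : ℕ) : ℝ) := by exact_mod_cast le_max_right X0 3
    have h4 : 0 < Real.log ((max X0 3 : ℕ) : ℝ) := Real.log_pos (by linarith)
    positivity
  have h3 : (0 : ℝ) < ((vals c ((PowerSeries.mk fun n =>
      (Fintype.card (Nat.Partition n) : ZMod 2)) ^ t₀) 1 (2 ^ b) ρ (max X0 3)).card : ℝ) :=
    h2.trans_le h1
  have h4 : 0 < (vals c ((PowerSeries.mk fun n =>
      (Fintype.card (Nat.Partition n) : ZMod 2)) ^ t₀) 1 (2 ^ b) ρ (max X0 3)).card := by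
    exact_mod_cast h3
  obtain ⟨n, hn⟩ := Finset.card_pos.1 h4
  unfold vals at hn
  obtain ⟨-, hn1, hn2⟩ := mem_filter.1 hn
  rw [← coeff_CC] at hn2
  refine ⟨(n + L) / 2 ^ b, ?_⟩
  have h5 : β + 2 ^ b * ((n + L) / 2 ^ b) = n + L := by
    have h6 : (n + L) % 2 ^ b = β := by
      rw [← hρ]
      exact Nat.ModEq.add_right L hn1
    rw [← h6, Nat.mod_add_div]
  have h7 := coeff_node P2 b β t₀ ((n + L) / 2 ^ b) (CC c) hβ
  rw [h5, Nat.div_eq_of_lt ht2, pow_zero, mul_one] at h7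
  rw [← h7]
  change coeff (n + L) (CC c * P2 ^ t₀) = 1 at hn2
  rw [hn2]
  exact one_ne_zero

/-- residue classes modulo odd numbers meet all progressions with difference `2 ^ i` -/
theorem Dn_odd {m : ℕ} (hm : Odd m) (b β s : ℕ) : Dn m fun a => (β + 2 ^ b * a) % m = s % m := by
  intro i v
  have hm0 : 0 < m := hm.pos
  have hcop : Nat.Coprime (2 ^ (b + i)) m := Nat.Coprime.pow_left _ (Nat.coprime_two_left.2 hm)
  have : NeZero m := ⟨hm0.ne'⟩
  have hinv := ZMod.coe_mul_inv_eq_one (n := m) (2 ^ (b + i)) hcop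
  set z : ZMod m := ((s : ZMod m) - β - 2 ^ b * v) * ((2 ^ (b + i) : ℕ) : ZMod m)⁻¹ with hz
  refine ⟨(z - 1).val + 1, by omega, ?_, ?_⟩
  · have h1 := ZMod.val_lt (z - 1)
    have h2 : m < 2 ^ m := Nat.lt_two_pow_self
    omega
  · change (β + 2 ^ b * (v + 2 ^ i * ((z - 1).val + 1))) % m = s % m
    rw [← ZMod.natCast_eq_natCast_iff']
    push_cast
    rw [ZMod.natCast_zmod_val, sub_add_cancel, hz]
    push_cast at hinv ⊢
    rw [pow_add] at hinv ⊢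
    linear_combination ((s : ZMod m) - β - 2 ^ b * v) * hinv

/-- the number of the `n ≤ x` in the residue class `ρ` modulo `M` at which the value of the pattern is
different from `w` -/
noncomputable def cntP (M ρ : ℕ) {L : ℕ} (c : Fin (L + 1) → ZMod 2) (w : ℕ → ZMod 2) (t x : ℕ) : ℕ :=
  #{n ∈ range (x + 1) | n % M = ρ % M ∧ pat c (P2 ^ t) n ≠ w n}

theorem cnt_le {M m b b' ρ L : ℕ} (hM : M = 2 ^ b' * m) (hm : Odd m) (hb : b' ≤ b)
    (c : Fin (L + 1) → ZMod 2) (w : ℕ → ZMod 2) (t x : ℕ) :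
    cnt P2 b ((ρ + L) % 2 ^ b) L (CC c) (fun n => w (n - L)) (fun n => n % m = (ρ + L) % m) t x ≤
      cntP M ρ c w t x := by
  classical
  unfold cnt cntP
  refine card_le_card fun n hn => ?_
  simp only [mem_filter] at hn
  obtain ⟨h1, h2, h3, h4⟩ := hn
  rw [mem_filter]
  refine ⟨h1, ?_, ?_⟩
  · have g1 : n ≡ ρ [MOD 2 ^ b'] := by
      have : n + L ≡ ρ + L [MOD 2 ^ b] := h2
      exact (Nat.ModEq.add_right_cancel' L this).of_dvd (pow_dvd_pow 2 hb)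
    have g2 : n ≡ ρ [MOD m] := Nat.ModEq.add_right_cancel' L h3
    have hcop : Nat.Coprime (2 ^ b') m := Nat.Coprime.pow_left _ (Nat.coprime_two_left.2 hm)
    rw [hM]
    exact (Nat.modEq_and_modEq_iff_modEq_mul hcop).1 ⟨g1, g2⟩
  · simp only [Nat.add_sub_cancel, coeff_CC] at h4
    exact h4

open scoped Classical in
theorem prog_bound (M : ℕ) (hM : 0 < M) : ∃ η : ℝ, 0 < η ∧ ∀ (ρ L : ℕ)
    (c : Fin (L + 1) → ZMod 2), c ≠ 0 → ∀ (w : ℕ → ZMod 2) (D : ℝ), 0 < D →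
    ∃ C : ℝ, 0 < C ∧ ∀ K X₀ : ℕ, 1 ≤ X₀ →
      (#{t ∈ range (2 ^ K) | t % 2 = 1 ∧ ∃ x, X₀ ≤ x ∧ x < 2 ^ K ∧
        (cntP M ρ c w t x : ℝ) < D * (x : ℝ) ^ (3 / 4 : ℝ)} : ℝ) ≤ C * 2 ^ K / (X₀ : ℝ) ^ η := by
  obtain ⟨b', m, hm, hMm⟩ := Nat.exists_eq_two_pow_mul_odd hM.ne'
  obtain ⟨η, hη, hmain⟩ := class_bound m hm.pos
  refine ⟨η, hη, ?_⟩
  intro ρ L c hc w D hD
  set b : ℕ := b' + 1 with hb
  have hP : 0 < 2 ^ b := by positivity
  have h2b : 2 ∣ 2 ^ b := dvd_pow_self 2 (by omega)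
  set β : ℕ := (ρ + L) % 2 ^ b with hβ
  have hβlt : β < 2 ^ b := Nat.mod_lt _ hP
  have hex : ∀ t₀ : ℕ, ∃ C : ℝ, 0 < C ∧ (t₀ % 2 = 1 → t₀ < 2 ^ b → ∀ K X₀ : ℕ, 1 ≤ X₀ →
      (#{t ∈ range (2 ^ K) | t % 2 ^ b = t₀ ∧ ∃ x, X₀ ≤ x ∧ x < 2 ^ K ∧
        (cnt P2 b β L (CC c) (fun n => w (n - L)) (fun n => n % m = (ρ + L) % m) t x : ℝ) <
          D * (x : ℝ) ^ (3 / 4 : ℝ)} : ℝ) ≤ C * 2 ^ K / (X₀ : ℝ) ^ η) := by
    intro t₀
    by_cases h1 : t₀ % 2 = 1
    · by_cases h2 : t₀ < 2 ^ b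
      · obtain ⟨C, hC, h⟩ := hmain P2 isP_P2 (CC c) b β t₀ L hβlt (node_ne c hc hβlt h1 h2)
          (fun n => w (n - L)) (fun n => n % m = (ρ + L) % m) (Dn_odd hm b β (ρ + L)) D hD
        exact ⟨C, hC, fun _ _ => h⟩
      · exact ⟨1, one_pos, fun _ h => absurd h h2⟩
    · exact ⟨1, one_pos, fun h => absurd h h1⟩
  choose Cf hCf hCf2 using hex
  refine ⟨∑ t₀ ∈ range (2 ^ b), Cf t₀, sum_pos (fun _ _ => hCf _) ⟨0, mem_range.2 hP⟩, ?_⟩
  intro K X₀ hX0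
  have hsub : {t ∈ range (2 ^ K) | t % 2 = 1 ∧ ∃ x, X₀ ≤ x ∧ x < 2 ^ K ∧
      (cntP M ρ c w t x : ℝ) < D * (x : ℝ) ^ (3 / 4 : ℝ)} ⊆
      ({t₀ ∈ range (2 ^ b) | t₀ % 2 = 1}).biUnion fun t₀ => {t ∈ range (2 ^ K) | t % 2 ^ b = t₀ ∧
        ∃ x, X₀ ≤ x ∧ x < 2 ^ K ∧
        (cnt P2 b β L (CC c) (fun n => w (n - L)) (fun n => n % m = (ρ + L) % m) t x : ℝ) <
          D * (x : ℝ) ^ (3 / 4 : ℝ)} := by
    intro t ht
    obtain ⟨h1, h2, x, h3, h4, h5⟩ := mem_filter.1 ht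
    rw [mem_biUnion]
    refine ⟨t % 2 ^ b, ?_, ?_⟩
    · rw [mem_filter, mem_range]
      refine ⟨Nat.mod_lt _ hP, ?_⟩
      rw [Nat.mod_mod_of_dvd _ h2b]
      exact h2
    · rw [mem_filter]
      refine ⟨h1, rfl, x, h3, h4, lt_of_le_of_lt ?_ h5⟩
      exact_mod_cast cnt_le (ρ := ρ) hMm hm (Nat.le_succ b') c w t x
  have h1 := (card_le_card hsub).trans card_biUnion_le
  have h2 : (0 : ℝ) ≤ 2 ^ K / (X₀ : ℝ) ^ η := by positivity
  calc (#{t ∈ range (2 ^ K) | t % 2 = 1 ∧ ∃ x, X₀ ≤ x ∧ x < 2 ^ K ∧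
      (cntP M ρ c w t x : ℝ) < D * (x : ℝ) ^ (3 / 4 : ℝ)} : ℝ) ≤
      ((∑ t₀ ∈ range (2 ^ b) with t₀ % 2 = 1, #{t ∈ range (2 ^ K) | t % 2 ^ b = t₀ ∧
        ∃ x, X₀ ≤ x ∧ x < 2 ^ K ∧
        (cnt P2 b β L (CC c) (fun n => w (n - L)) (fun n => n % m = (ρ + L) % m) t x : ℝ) <
          D * (x : ℝ) ^ (3 / 4 : ℝ)} : ℕ) : ℝ) := by exact_mod_cast h1
    _ = ∑ t₀ ∈ range (2 ^ b) with t₀ % 2 = 1, (#{t ∈ range (2 ^ K) | t % 2 ^ b = t₀ ∧
        ∃ x, X₀ ≤ x ∧ x < 2 ^ K ∧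
        (cnt P2 b β L (CC c) (fun n => w (n - L)) (fun n => n % m = (ρ + L) % m) t x : ℝ) <
          D * (x : ℝ) ^ (3 / 4 : ℝ)} : ℝ) := by
        push_cast
        rfl
    _ ≤ ∑ t₀ ∈ range (2 ^ b) with t₀ % 2 = 1, Cf t₀ * 2 ^ K / (X₀ : ℝ) ^ η := by
        refine sum_le_sum fun t₀ ht => ?_
        rw [mem_filter, mem_range] at ht
        exact hCf2 t₀ ht.2 ht.1 K X₀ hX0
    _ ≤ ∑ t₀ ∈ range (2 ^ b), Cf t₀ * 2 ^ K / (X₀ : ℝ) ^ η := by
        refine sum_le_sum_of_subset_of_nonneg (filter_subset _ _) fun t₀ _ _ => ?_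
        have := hCf t₀
        positivity
    _ = (∑ t₀ ∈ range (2 ^ b), Cf t₀) * 2 ^ K / (X₀ : ℝ) ^ η := by
        rw [sum_mul, sum_div]

end Pool.Agent.K7.H72.MT
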