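import Pool.Agent.K7.H72.MT.K

set_option autoImplicit false

/-!
# Almost all 2-adic `t`
-/

namespace Pool.Agent.K7.H72.MT

open PowerSeries Finset MeasureTheory

/-- the `2`-adic integers with first digits `a` -/
def cyl (K a : ℕ) : Set ℤ_[2] := {t | t.appr K = a}

theorem mem_cyl {K a : ℕ} (ha : a < 2 ^ K) (t : ℤ_[2]) :
    t ∈ cyl K a ↔ ‖t - (a : ℤ_[2])‖ ≤ (2 : ℝ) ^ (-(K : ℤ)) := by
  have h2 : ((2 : ℕ) : ℝ) ^ (-(K : ℤ)) = (2 : ℝ) ^ (-(K : ℤ)) := by norm_num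
  rw [← h2, PadicInt.norm_le_pow_iff_mem_span_pow]
  constructor
  · intro h
    have h1 := PadicInt.appr_spec (p := 2) K t
    rw [show t.appr K = a from h] at h1
    exact h1
  · intro h
    have h1 := PadicInt.zmod_congr_of_sub_mem_span (p := 2) K t _ _ (PadicInt.appr_spec (p := 2) K t) h
    rw [ZMod.natCast_eq_natCast_iff'] at h1
    rw [Nat.mod_eq_of_lt (PadicInt.appr_lt t K), Nat.mod_eq_of_lt ha] at h1
    exact h1

theorem cyl_shift {K a : ℕ} (ha : a < 2 ^ K) :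
    cyl K a = (fun x : ℤ_[2] => -(a : ℤ_[2]) + x) ⁻¹' cyl K 0 := by
  ext t
  rw [Set.mem_preimage, mem_cyl ha, mem_cyl (by positivity), Nat.cast_zero, sub_zero,
    neg_add_eq_sub]

section measure

variable [MeasurableSpace ℤ_[2]] [BorelSpace ℤ_[2]]

theorem measurable_cyl {K a : ℕ} (ha : a < 2 ^ K) : MeasurableSet (cyl K a) := by
  have h : cyl K a = {t | ‖t - (a : ℤ_[2])‖ ≤ (2 : ℝ) ^ (-(K : ℤ))} := by
    ext t
    exact mem_cyl ha t
  rw [h]
  exact (isClosed_le (by fun_prop) continuous_const).measurableSet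

variable (μ : Measure ℤ_[2]) [IsProbabilityMeasure μ] [μ.IsAddLeftInvariant]

omit [IsProbabilityMeasure μ] in
theorem measure_cyl {K a : ℕ} (ha : a < 2 ^ K) : μ (cyl K a) = μ (cyl K 0) := by
  rw [cyl_shift ha]
  exact measure_preimage_add μ _ _

theorem measure_cyl_zero (K : ℕ) : (2 ^ K : ENNReal) * μ (cyl K 0) ≤ 1 := by
  have h1 : μ (⋃ a ∈ range (2 ^ K), cyl K a) = ∑ a ∈ range (2 ^ K), μ (cyl K a) := by
    apply measure_biUnion_finset
    · intro a _ b _ hab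
      rw [Function.onFun, Set.disjoint_left]
      intro t h1 h2
      exact hab (h1.symm.trans h2)
    · intro a ha
      exact measurable_cyl (mem_range.1 ha)
  have h2 : ∑ a ∈ range (2 ^ K), μ (cyl K a) = (2 ^ K : ENNReal) * μ (cyl K 0) := by
    rw [sum_congr rfl fun a ha => measure_cyl μ (mem_range.1 ha), sum_const, card_range,
      nsmul_eq_mul]
    push_cast
    rfl
  rw [← h2, ← h1]
  exact prob_le_one

theorem measure_finset (K : ℕ) (E : Finset ℕ) (hE : E ⊆ range (2 ^ K)) :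
    μ {t : ℤ_[2] | t.appr K ∈ E} ≤ ENNReal.ofReal ((#E : ℝ) / 2 ^ K) := by
  have h1 : {t : ℤ_[2] | t.appr K ∈ E} = ⋃ a ∈ E, cyl K a := by
    ext t
    simp [cyl]
  rw [h1]
  refine (measure_biUnion_finset_le E _).trans ?_
  rw [sum_congr rfl fun a ha => measure_cyl μ (mem_range.1 (hE ha)), sum_const, nsmul_eq_mul]
  have h2 := measure_cyl_zero μ K
  have h3 : μ (cyl K 0) ≤ (2 ^ K : ENNReal)⁻¹ := by
    rw [ENNReal.le_inv_iff_mul_le, mul_comm]
    exact h2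
  calc (#E : ENNReal) * μ (cyl K 0) ≤ (#E : ENNReal) * (2 ^ K : ENNReal)⁻¹ := by gcongr
    _ = ENNReal.ofReal ((#E : ℝ) / 2 ^ K) := by
        rw [ENNReal.ofReal_div_of_pos (by positivity), ENNReal.ofReal_natCast,
          ENNReal.ofReal_pow (by norm_num), ENNReal.ofReal_ofNat, div_eq_mul_inv]

end measure

theorem coeff_congr {G : S} (hG : coeff 0 G = 1) (U : S) {m n s s' : ℕ} (hn : n < 2 ^ m)
    (h : s ≡ s' [MOD 2 ^ m]) : coeff n (U * G ^ s) = coeff n (U * G ^ s') := by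
  have key : ∀ s, coeff n (U * G ^ s) = coeff n (U * G ^ (s % 2 ^ m)) := by
    intro s
    conv_lhs => rw [← Nat.mod_add_div s (2 ^ m), pow_add, ← mul_assoc]
    exact coeff_stable hG _ m _ n 0 (fun i hi => absurd hi (Nat.not_lt_zero i)) (by omega)
  rw [key s, key s', h]

theorem appr_modEq (t : ℤ_[2]) {m n : ℕ} (h : m ≤ n) : t.appr m ≡ t.appr n [MOD 2 ^ m] :=
  (Nat.modEq_iff_dvd' (t.appr_mono h)).2 (t.dvd_appr_sub_appr m n h)

/-- the coefficients of `P ^ t` for a 2-adic integer `t` -/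
noncomputable def pz (t : ℤ_[2]) (n : ℕ) : ZMod 2 := coeff n (P2 ^ (t.appr (n + 1)))

theorem coeff_congr' {m n s s' : ℕ} (hn : n < 2 ^ m) (h : s ≡ s' [MOD 2 ^ m]) :
    coeff n (P2 ^ s) = coeff n (P2 ^ s') := by
  have := coeff_congr isP_P2.zero 1 hn h
  rwa [one_mul, one_mul] at this

theorem pz_eq (t : ℤ_[2]) {n K : ℕ} (hn : n < 2 ^ K) : pz t n = coeff n (P2 ^ (t.appr K)) := by
  unfold pz
  have hn' : n < 2 ^ (n + 1) := Nat.lt_of_succ_lt (Nat.lt_two_pow_self (n := n + 1))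
  rcases Nat.le_total (n + 1) K with h | h
  · exact coeff_congr' hn' (appr_modEq t h)
  · exact (coeff_congr' hn (appr_modEq t h)).symm

/-- the number of the `n ≤ x` in the residue class with a value of the pattern different from `w` -/
noncomputable def cntZ (M ρ : ℕ) {L : ℕ} (c : Fin (L + 1) → ZMod 2) (w : ℕ → ZMod 2) (t : ℤ_[2])
    (x : ℕ) : ℕ :=
  #{n ∈ range (x + 1) | n % M = ρ % M ∧ ∑ i : Fin (L + 1), c i * pz t (n + i) ≠ w n}

theorem cntZ_eq (M ρ : ℕ) {L : ℕ} (c : Fin (L + 1) → ZMod 2) (w : ℕ → ZMod 2) (t : ℤ_[2])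
    {x K : ℕ} (h : x + L < 2 ^ K) : cntZ M ρ c w t x = cntP M ρ c w (t.appr K) x := by
  unfold cntZ cntP
  congr 1
  ext n
  rw [mem_filter, mem_filter]
  refine and_congr_right fun hn => and_congr_right fun _ => ?_
  rw [mem_range] at hn
  have : ∑ i : Fin (L + 1), c i * pz t (n + i) = Pool.Agent.R836.PP.pat c (P2 ^ t.appr K) n := by
    unfold Pool.Agent.R836.PP.pat
    refine sum_congr rfl fun i _ => ?_
    have hi := i.2
    rw [pz_eq t (show n + (i : ℕ) < 2 ^ K by omega)]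
  rw [this]

/-- one pattern, one progression -/
theorem ae_one (M : ℕ) (hM : 0 < M) (ρ L : ℕ) (c : Fin (L + 1) → ZMod 2) (hc : c ≠ 0)
    (w : ℕ → ZMod 2) (D : ℝ) (hD : 0 < D)
    [MeasurableSpace ℤ_[2]] [BorelSpace ℤ_[2]] (μ : Measure ℤ_[2]) [IsProbabilityMeasure μ]
    [μ.IsAddLeftInvariant] :
    ∀ᵐ t ∂μ, t.appr 1 = 1 → ∃ x₀ : ℕ, ∀ x : ℕ, x₀ ≤ x →
      D * (x : ℝ) ^ (3 / 4 : ℝ) ≤ cntZ M ρ c w t x := by
  classical
  obtain ⟨η, hη, hmain⟩ := prog_bound M hM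
  obtain ⟨C, hC, hb⟩ := hmain ρ L c hc w D hD
  rw [ae_iff]
  set Bd : Set ℤ_[2] := {t | ¬ (t.appr 1 = 1 → ∃ x₀ : ℕ, ∀ x : ℕ, x₀ ≤ x →
      D * (x : ℝ) ^ (3 / 4 : ℝ) ≤ cntZ M ρ c w t x)} with hBd
  have hle : ∀ X₀ : ℕ, 1 ≤ X₀ → μ Bd ≤ ENNReal.ofReal (C / (X₀ : ℝ) ^ η) := by
    intro X₀ hX0
    let E : ℕ → Finset ℕ := fun K => {t ∈ range (2 ^ K) | t % 2 = 1 ∧ ∃ x, X₀ ≤ x ∧ x + L < 2 ^ K ∧
        (cntP M ρ c w t x : ℝ) < D * (x : ℝ) ^ (3 / 4 : ℝ)}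
    have hmemE : ∀ (t : ℤ_[2]) (K : ℕ), t.appr K ∈ E K ↔ t.appr K % 2 = 1 ∧
        ∃ x, X₀ ≤ x ∧ x + L < 2 ^ K ∧ (cntZ M ρ c w t x : ℝ) < D * (x : ℝ) ^ (3 / 4 : ℝ) := by
      intro t K
      rw [mem_filter, mem_range]
      constructor
      · rintro ⟨-, h0, x, h1, h2, h3⟩
        refine ⟨h0, x, h1, h2, ?_⟩
        rw [cntZ_eq M ρ c w t h2]
        exact h3
      · rintro ⟨h0, x, h1, h2, h3⟩
        refine ⟨PadicInt.appr_lt t K, h0, x, h1, h2, ?_⟩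
        rw [cntZ_eq M ρ c w t h2] at h3
        exact h3
    have hodd : ∀ (t : ℤ_[2]) (K : ℕ), 1 ≤ K → t.appr K % 2 = t.appr 1 := by
      intro t K hK
      have h1 := appr_modEq t hK
      rw [pow_one] at h1
      have h2 := PadicInt.appr_lt t 1
      rw [pow_one] at h2
      rw [← h1, Nat.mod_eq_of_lt h2]
    have hsub : Bd ⊆ ⋃ K, {t : ℤ_[2] | t.appr K ∈ E K} := by
      intro t ht
      change ¬ (t.appr 1 = 1 → ∃ x₀ : ℕ, ∀ x : ℕ, x₀ ≤ x →
        D * (x : ℝ) ^ (3 / 4 : ℝ) ≤ cntZ M ρ c w t x) at ht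
      push Not at ht
      obtain ⟨ht1, ht⟩ := ht
      obtain ⟨x, hx1, hx2⟩ := ht X₀
      rw [Set.mem_iUnion]
      refine ⟨x + L, (hmemE t (x + L)).2 ⟨?_, x, hx1, Nat.lt_two_pow_self, hx2⟩⟩
      rw [hodd t _ (by omega), ht1]
    have hmono : Monotone fun K => {t : ℤ_[2] | t.appr K ∈ E K} := by
      intro K K' hK t ht
      obtain ⟨h0, x, h1, h2, h3⟩ := (hmemE t K).1 ht
      refine (hmemE t K').2 ⟨?_, x, h1, h2.trans_le (Nat.pow_le_pow_right (by norm_num) hK), h3⟩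
      have hK1 : 1 ≤ K := by
        rcases Nat.eq_zero_or_pos K with rfl | h
        · rw [pow_zero] at h2
          omega
        · exact h
      rw [hodd t K' (by omega), ← hodd t K hK1]
      exact h0
    refine (measure_mono hsub).trans ?_
    rw [hmono.measure_iUnion]
    refine iSup_le fun K => ?_
    refine (measure_finset μ K (E K) (filter_subset _ _)).trans ?_
    apply ENNReal.ofReal_le_ofReal
    have h1 := hb K X₀ hX0
    have h2 : (0 : ℝ) < 2 ^ K := by positivity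
    rw [div_le_iff₀ h2]
    have h3 : E K ⊆ {t ∈ range (2 ^ K) | t % 2 = 1 ∧ ∃ x, X₀ ≤ x ∧ x < 2 ^ K ∧
        (cntP M ρ c w t x : ℝ) < D * (x : ℝ) ^ (3 / 4 : ℝ)} := by
      intro t ht
      obtain ⟨g1, g2, x, g3, g4, g5⟩ := mem_filter.1 ht
      exact mem_filter.2 ⟨g1, g2, x, g3, by omega, g5⟩
    calc (#(E K) : ℝ) ≤ (#{t ∈ range (2 ^ K) | t % 2 = 1 ∧ ∃ x, X₀ ≤ x ∧ x < 2 ^ K ∧
        (cntP M ρ c w t x : ℝ) < D * (x : ℝ) ^ (3 / 4 : ℝ)} : ℝ) := by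
          exact_mod_cast card_le_card h3
      _ ≤ C * 2 ^ K / (X₀ : ℝ) ^ η := by convert h1
      _ = C / (X₀ : ℝ) ^ η * 2 ^ K := by ring
  have hlim : Filter.Tendsto (fun n : ℕ => ENNReal.ofReal (C / (n : ℝ) ^ η)) Filter.atTop
      (nhds (ENNReal.ofReal 0)) := by
    apply ENNReal.tendsto_ofReal
    have h1 : Filter.Tendsto (fun n : ℕ => (n : ℝ) ^ η) Filter.atTop Filter.atTop :=
      (tendsto_rpow_atTop hη).comp tendsto_natCast_atTop_atTop
    exact h1.const_div_atTop C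
  rw [ENNReal.ofReal_zero] at hlim
  refine le_antisymm ?_ zero_le
  refine ge_of_tendsto hlim ?_
  filter_upwards [Filter.eventually_ge_atTop 1] with n hn using hle n hn

/-- all patterns, all progressions -/
theorem ae_all (w : ℕ → ZMod 2)
    [MeasurableSpace ℤ_[2]] [BorelSpace ℤ_[2]] (μ : Measure ℤ_[2]) [IsProbabilityMeasure μ]
    [μ.IsAddLeftInvariant] :
    ∀ᵐ t ∂μ, t.appr 1 = 1 → ∀ M : ℕ, 0 < M → ∀ (ρ L : ℕ) (c : Fin (L + 1) → ZMod 2), c ≠ 0 →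
      Filter.Tendsto (fun x : ℕ => (cntZ M ρ c w t x : ℝ) / (x : ℝ) ^ (3 / 4 : ℝ)) Filter.atTop
        Filter.atTop := by
  have h : ∀ᵐ t ∂μ, ∀ (M ρ L : ℕ) (c : Fin (L + 1) → ZMod 2) (D : ℕ), 0 < M → c ≠ 0 → 0 < D →
      t.appr 1 = 1 → ∃ x₀ : ℕ, ∀ x : ℕ, x₀ ≤ x →
        (D : ℝ) * (x : ℝ) ^ (3 / 4 : ℝ) ≤ cntZ M ρ c w t x := by
    rw [MeasureTheory.ae_all_iff]
    intro M
    rw [MeasureTheory.ae_all_iff]
    intro ρ
    rw [MeasureTheory.ae_all_iff]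
    intro L
    rw [MeasureTheory.ae_all_iff]
    intro c
    rw [MeasureTheory.ae_all_iff]
    intro D
    by_cases hM : 0 < M
    · by_cases hc : c ≠ 0
      · by_cases hD : 0 < D
        · filter_upwards [ae_one M hM ρ L c hc w D (by exact_mod_cast hD) μ] with t ht _ _ _
          exact ht
        · exact Filter.Eventually.of_forall fun t _ _ h => absurd h hD
      · exact Filter.Eventually.of_forall fun t _ h => absurd h hc
    · exact Filter.Eventually.of_forall fun t h => absurd h hM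
  filter_upwards [h] with t ht h1 M hM ρ L c hc
  rw [Filter.tendsto_atTop]
  intro B
  obtain ⟨D, hD⟩ := exists_nat_ge B
  obtain ⟨x₀, hx₀⟩ := ht M ρ L c (D + 1) hM hc (Nat.succ_pos D) h1
  filter_upwards [Filter.eventually_ge_atTop (max x₀ 1)] with x hx
  have hx1 : (0 : ℝ) < x := by
    exact_mod_cast (le_max_right x₀ 1).trans hx
  have hxp : 0 < (x : ℝ) ^ (3 / 4 : ℝ) := by positivity
  rw [le_div_iff₀ hxp]
  refine le_trans ?_ (hx₀ x ((le_max_left _ _).trans hx))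
  push_cast
  gcongr
  linarith

end Pool.Agent.K7.H72.MT
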