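import Pool.Agent.K7.H72.MT.L

set_option autoImplicit false

/-!
# Large deviations for patterns
-/

namespace Pool.Agent.K7.H72.MT

open PowerSeries Finset Pool.Agent.R836.PP

theorem CC_ne {L : ℕ} (c : Fin (L + 1) → ZMod 2) (hc : c ≠ 0) : ∃ m, coeff m (CC c) ≠ 0 := by
  obtain ⟨m, hm⟩ := node_ne c hc (b := 1) (β := 0) (t₀ := 1) (by norm_num) (by norm_num)
    (by norm_num)
  by_contra hcon
  push Not at hcon
  have h0 : CC c = 0 := by
    ext n
    rw [hcon n, map_zero]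
  apply hm
  rw [h0]
  unfold node node step
  rw [zero_mul]
  have : sec (0 % 2) (0 : S) = 0 := by
    ext n
    rw [coeff_sec, map_zero, map_zero]
  rw [this, map_zero]

/-- for most `t` the number of the odd values is not small -/
theorem ld_pat {L : ℕ} (c : Fin (L + 1) → ZMod 2) (hc : c ≠ 0) {θ : ℝ} (hθ : 0 ≤ θ) :
    ∃ C : ℝ, 0 < C ∧ ∀ K B : ℕ, 1 ≤ B →
      (#{t ∈ range (2 ^ K) | #{n ∈ range (2 ^ K) | pat c (P2 ^ t) n ≠ 0} < B} : ℝ) ≤
        C * (B : ℝ) ^ θ * (1 + (20 / 57 : ℝ) ^ θ) ^ K := by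
  obtain ⟨C, hC, h⟩ := ld_bound isP_P2 (CC_ne c hc) hθ
  refine ⟨C * ((L + 1 : ℕ) : ℝ) ^ θ, by positivity, ?_⟩
  intro K B hB
  have h1 := h K ((L + 1) * B) (by nlinarith)
  have hsub : {t ∈ range (2 ^ K) | #{n ∈ range (2 ^ K) | pat c (P2 ^ t) n ≠ 0} < B} ⊆
      {t ∈ range (2 ^ K) | #{n ∈ range (2 ^ K) | coeff n (CC c * P2 ^ t) ≠ 0} < (L + 1) * B} := by
    intro t ht
    rw [mem_filter] at ht ⊢
    refine ⟨ht.1, ?_⟩
    have h2 : {n ∈ range (2 ^ K) | coeff n (CC c * P2 ^ t) ≠ 0} ⊆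
        range L ∪ ({n ∈ range (2 ^ K) | pat c (P2 ^ t) n ≠ 0}).image fun n => n + L := by
      intro n hn
      rw [mem_filter, mem_range] at hn
      rw [mem_union]
      rcases Nat.lt_or_ge n L with h3 | h3
      · exact Or.inl (mem_range.2 h3)
      · right
        rw [mem_image]
        refine ⟨n - L, ?_, by omega⟩
        rw [mem_filter, mem_range, ← coeff_CC, Nat.sub_add_cancel h3]
        exact ⟨by omega, hn.2⟩
    have h3 := (card_le_card h2).trans (card_union_le _ _)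
    have h4 := card_image_le (s := {n ∈ range (2 ^ K) | pat c (P2 ^ t) n ≠ 0})
      (f := fun n => n + L)
    rw [card_range] at h3
    have h5 : L * 1 ≤ L * B := Nat.mul_le_mul_left _ hB
    have h6 : (L + 1) * B = L * B + B := by ring
    have h7 := ht.2
    omega
  calc _ ≤ (#{t ∈ range (2 ^ K) |
        #{n ∈ range (2 ^ K) | coeff n (CC c * P2 ^ t) ≠ 0} < (L + 1) * B} : ℝ) := by
        exact_mod_cast card_le_card hsub
    _ ≤ C * (((L + 1) * B : ℕ) : ℝ) ^ θ * (1 + (20 / 57 : ℝ) ^ θ) ^ K := h1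
    _ = C * ((L + 1 : ℕ) : ℝ) ^ θ * (B : ℝ) ^ θ * (1 + (20 / 57 : ℝ) ^ θ) ^ K := by
        rw [Nat.cast_mul, Real.mul_rpow (by positivity) (by positivity)]
        ring

end Pool.Agent.K7.H72.MT
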