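import Pool.Agent.K7.H72.MT.M

set_option autoImplicit false

/-!
# The Hausdorff dimension of the exceptional set
-/

namespace Pool.Agent.K7.H72.MT

open PowerSeries Finset MeasureTheory MeasureTheory.Measure

theorem ediam_cyl (K a : ℕ) : Metric.ediam (cyl K a) ≤ ENNReal.ofReal ((2 : ℝ) ^ (-(K : ℝ))) := by
  apply Metric.ediam_le
  intro x hx y hy
  rw [edist_dist]
  apply ENNReal.ofReal_le_ofReal
  rw [dist_eq_norm]
  have h2 : ((2 : ℕ) : ℝ) ^ (-(K : ℤ)) = (2 : ℝ) ^ (-(K : ℝ)) := by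
    rw [← Real.rpow_intCast]
    norm_num
  rw [← h2, PadicInt.norm_le_pow_iff_mem_span_pow]
  have h3 := PadicInt.appr_spec (p := 2) K x
  have h4 := PadicInt.appr_spec (p := 2) K y
  rw [show x.appr K = a from hx] at h3
  rw [show y.appr K = a from hy] at h4
  have h5 := Ideal.sub_mem _ h3 h4
  rwa [sub_sub_sub_cancel_right] at h5

theorem dim_limsup {E : ℕ → Finset ℕ} {C s δ : ℝ} (hs : 0 < s) (hδ : 0 < δ) (hC : 0 ≤ C) {K₀ : ℕ}
    (hcard : ∀ K ≥ K₀, (#(E K) : ℝ) ≤ C * (2 : ℝ) ^ ((s - δ) * (K : ℝ))) {B : Set ℤ_[2]}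
    (hB : ∀ n ≥ K₀, B ⊆ ⋃ k, {t | t.appr (n + k) ∈ E (n + k)}) : dimH B ≤ ENNReal.ofReal s := by
  borelize ℤ_[2]
  have hle : μH[s] B ≤ 0 := by
    have h1 := hausdorffMeasure_le_liminf_tsum (X := ℤ_[2]) (β := ℕ) (ι := fun _ => ℕ × ℕ) s B
      (l := Filter.atTop) (fun n : ℕ => ENNReal.ofReal ((2 : ℝ) ^ (-(n : ℝ)))) (by
        rw [← ENNReal.ofReal_zero]
        apply ENNReal.tendsto_ofReal
        have h2 : Filter.Tendsto (fun n : ℕ => (1 / 2 : ℝ) ^ n) Filter.atTop (nhds 0) :=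
          tendsto_pow_atTop_nhds_zero_of_lt_one (by norm_num) (by norm_num)
        refine h2.congr fun n => ?_
        rw [Real.rpow_neg (by norm_num), Real.rpow_natCast, one_div, inv_pow])
      (fun n p => if p.2 ∈ E (n + p.1) then cyl (n + p.1) p.2 else ∅)
      (Filter.Eventually.of_forall fun n p => by
        split_ifs with h
        · refine (ediam_cyl _ _).trans (ENNReal.ofReal_le_ofReal ?_)
          apply Real.rpow_le_rpow_of_exponent_le (by norm_num)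
          push_cast
          have : (0 : ℝ) ≤ p.1 := by positivity
          linarith
        · rw [Metric.ediam_empty]
          exact zero_le)
      ((Filter.eventually_ge_atTop K₀).mono fun n hn t ht => by
        obtain ⟨k, hk⟩ := Set.mem_iUnion.1 (hB n hn ht)
        have hk' : t.appr (n + k) ∈ E (n + k) := hk
        rw [Set.mem_iUnion]
        refine ⟨(k, t.appr (n + k)), ?_⟩
        simp only [if_pos hk']
        exact rfl)
    refine h1.trans ?_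
    have hlim : Filter.Tendsto (fun n : ℕ => ENNReal.ofReal (C * (2 : ℝ) ^ (-δ * (n : ℝ)) *
        (1 - (2 : ℝ) ^ (-δ))⁻¹)) Filter.atTop (nhds 0) := by
      rw [← ENNReal.ofReal_zero]
      apply ENNReal.tendsto_ofReal
      have h2 : Filter.Tendsto (fun n : ℕ => ((2 : ℝ) ^ (-δ)) ^ n) Filter.atTop (nhds 0) :=
        tendsto_pow_atTop_nhds_zero_of_lt_one (by positivity)
          (Real.rpow_lt_one_of_one_lt_of_neg (by norm_num) (by linarith))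
      have h3 := (h2.const_mul C).mul_const (1 - (2 : ℝ) ^ (-δ))⁻¹
      rw [mul_zero, zero_mul] at h3
      refine h3.congr fun n => ?_
      rw [← Real.rpow_natCast, ← Real.rpow_mul (by norm_num)]
    rw [← hlim.liminf_eq]
    refine Filter.liminf_le_liminf ((Filter.eventually_ge_atTop K₀).mono fun n hn => ?_)
    calc ∑' p : ℕ × ℕ, Metric.ediam (if p.2 ∈ E (n + p.1) then cyl (n + p.1) p.2 else ∅) ^ s =
        ∑' (k : ℕ) (a : ℕ), Metric.ediam (if a ∈ E (n + k) then cyl (n + k) a else ∅) ^ s :=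
          ENNReal.tsum_prod (f := fun k a =>
            Metric.ediam (if a ∈ E (n + k) then cyl (n + k) a else ∅) ^ s)
      _ ≤ ∑' k : ℕ, ENNReal.ofReal (C * (2 : ℝ) ^ (-δ * (n : ℝ)) * ((2 : ℝ) ^ (-δ)) ^ k) := by
          refine ENNReal.tsum_le_tsum fun k => ?_
          rw [tsum_eq_sum (s := E (n + k)) (fun a ha => by
            rw [if_neg ha, Metric.ediam_empty, ENNReal.zero_rpow_of_pos hs])]
          have h2 : ∀ a ∈ E (n + k), Metric.ediam (if a ∈ E (n + k) then cyl (n + k) a else ∅) ^ s ≤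
              ENNReal.ofReal ((2 : ℝ) ^ (-s * ((n + k : ℕ) : ℝ))) := by
            intro a ha
            rw [if_pos ha]
            refine (ENNReal.rpow_le_rpow (ediam_cyl (n + k) a) hs.le).trans (le_of_eq ?_)
            rw [ENNReal.ofReal_rpow_of_pos (by positivity), ← Real.rpow_mul (by norm_num)]
            congr 2
            ring
          refine (sum_le_card_nsmul _ _ _ h2).trans ?_
          rw [nsmul_eq_mul, ← ENNReal.ofReal_natCast, ← ENNReal.ofReal_mul (by positivity)]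
          apply ENNReal.ofReal_le_ofReal
          calc (#(E (n + k)) : ℝ) * (2 : ℝ) ^ (-s * ((n + k : ℕ) : ℝ)) ≤
              C * (2 : ℝ) ^ ((s - δ) * ((n + k : ℕ) : ℝ)) * (2 : ℝ) ^ (-s * ((n + k : ℕ) : ℝ)) := by
                have := hcard (n + k) (by omega)
                gcongr
            _ = C * (2 : ℝ) ^ (-δ * (n : ℝ)) * ((2 : ℝ) ^ (-δ)) ^ k := by
                rw [← Real.rpow_natCast ((2 : ℝ) ^ (-δ)) k, ← Real.rpow_mul (by norm_num), mul_assoc,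
                  mul_assoc, ← Real.rpow_add (by norm_num), ← Real.rpow_add (by norm_num)]
                congr 2
                push_cast
                ring
      _ = ENNReal.ofReal (C * (2 : ℝ) ^ (-δ * (n : ℝ)) * (1 - (2 : ℝ) ^ (-δ))⁻¹) := by
          have hr0 : (0 : ℝ) ≤ (2 : ℝ) ^ (-δ) := by positivity
          have hr1 : (2 : ℝ) ^ (-δ) < 1 :=
            Real.rpow_lt_one_of_one_lt_of_neg (by norm_num) (by linarith)
          have hsum : Summable fun k : ℕ => C * (2 : ℝ) ^ (-δ * (n : ℝ)) * ((2 : ℝ) ^ (-δ)) ^ k :=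
            (summable_geometric_of_lt_one hr0 hr1).mul_left _
          rw [← ENNReal.ofReal_tsum_of_nonneg (fun k => by positivity) hsum, tsum_mul_left,
            tsum_geometric_of_lt_one hr0 hr1]
  have hne : μH[((s.toNNReal : NNReal) : ℝ)] B ≠ ⊤ := by
    rw [Real.coe_toNNReal s hs.le]
    exact ne_top_of_le_ne_top ENNReal.zero_ne_top hle
  exact dimH_le_of_hausdorffMeasure_ne_top hne

/-- the exceptional set of one pattern -/
def Bd (M ρ : ℕ) {L : ℕ} (c : Fin (L + 1) → ZMod 2) (w : ℕ → ZMod 2) (D : ℝ) : Set ℤ_[2] :=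
  {t | t.appr 1 = 1 ∧ ¬ ∃ x₀ : ℕ, ∀ x : ℕ, x₀ ≤ x → D * (x : ℝ) ^ (3 / 4 : ℝ) ≤ cntZ M ρ c w t x}

theorem dim_Bd {M : ℕ} {η : ℝ} (hη : 0 < η) (ρ L : ℕ) (c : Fin (L + 1) → ZMod 2)
    (w : ℕ → ZMod 2) (D C : ℝ) (hC : 0 < C) (hb : ∀ K X₀ : ℕ, 1 ≤ X₀ →
      (Set.ncard {t : ℕ | t < 2 ^ K ∧ t % 2 = 1 ∧ ∃ x, X₀ ≤ x ∧ x < 2 ^ K ∧
        (cntP M ρ c w t x : ℝ) < D * (x : ℝ) ^ (3 / 4 : ℝ)} : ℝ) ≤ C * 2 ^ K / (X₀ : ℝ) ^ η) :
    dimH (Bd M ρ c w D) ≤ ENNReal.ofReal (1 - min η 1 / 2) := by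
  classical
  set η' : ℝ := min η 1 with hη'
  have h0 : 0 < η' := lt_min hη one_pos
  have h1 : η' ≤ 1 := min_le_right _ _
  have h2 : η' ≤ η := min_le_left _ _
  refine dim_limsup (E := fun K => {t ∈ range (2 ^ K) | t % 2 = 1 ∧ ∃ x, 2 ^ (K - 2) ≤ x ∧
      x + L < 2 ^ K ∧ (cntP M ρ c w t x : ℝ) < D * (x : ℝ) ^ (3 / 4 : ℝ)})
    (C := C * 4) (δ := η' / 2) (K₀ := 2) (by linarith) (by linarith) (by positivity) ?_ ?_
  · intro K hK
    have h3 := hb K (2 ^ (K - 2)) Nat.one_le_two_pow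
    have h4 : (#{t ∈ range (2 ^ K) | t % 2 = 1 ∧ ∃ x, 2 ^ (K - 2) ≤ x ∧
        x + L < 2 ^ K ∧ (cntP M ρ c w t x : ℝ) < D * (x : ℝ) ^ (3 / 4 : ℝ)} : ℝ) ≤
        (Set.ncard {t : ℕ | t < 2 ^ K ∧ t % 2 = 1 ∧ ∃ x, 2 ^ (K - 2) ≤ x ∧ x < 2 ^ K ∧
          (cntP M ρ c w t x : ℝ) < D * (x : ℝ) ^ (3 / 4 : ℝ)} : ℝ) := by
      rw [← Set.ncard_coe_finset]
      have hfin : Set.Finite {t : ℕ | t < 2 ^ K ∧ t % 2 = 1 ∧ ∃ x, 2 ^ (K - 2) ≤ x ∧ x < 2 ^ K ∧
          (cntP M ρ c w t x : ℝ) < D * (x : ℝ) ^ (3 / 4 : ℝ)} :=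
        (Set.finite_lt_nat (2 ^ K)).subset fun t ht => ht.1
      have hss : (({t ∈ range (2 ^ K) | t % 2 = 1 ∧ ∃ x, 2 ^ (K - 2) ≤ x ∧
          x + L < 2 ^ K ∧ (cntP M ρ c w t x : ℝ) < D * (x : ℝ) ^ (3 / 4 : ℝ)} : Finset ℕ) : Set ℕ) ⊆
          {t : ℕ | t < 2 ^ K ∧ t % 2 = 1 ∧ ∃ x, 2 ^ (K - 2) ≤ x ∧ x < 2 ^ K ∧
          (cntP M ρ c w t x : ℝ) < D * (x : ℝ) ^ (3 / 4 : ℝ)} := by
        intro t ht
        rw [mem_coe, mem_filter, mem_range] at ht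
        obtain ⟨g1, g2, x, g3, g4, g5⟩ := ht
        exact ⟨g1, g2, x, g3, by omega, g5⟩
      exact_mod_cast Set.ncard_le_ncard hss hfin
    refine (h4.trans h3).trans ?_
    have h5 : ((2 ^ (K - 2) : ℕ) : ℝ) = (2 : ℝ) ^ ((K : ℝ) - 2) := by
      rw [Nat.cast_pow, ← Real.rpow_natCast, Nat.cast_sub hK]
      norm_num
    have h6 : (2 : ℝ) ^ (((K : ℝ) - 2) * η') ≤ ((2 ^ (K - 2) : ℕ) : ℝ) ^ η := by
      rw [h5, ← Real.rpow_mul (by norm_num)]
      apply Real.rpow_le_rpow_of_exponent_le (by norm_num)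
      have : (2 : ℝ) ≤ K := by exact_mod_cast hK
      exact mul_le_mul_of_nonneg_left h2 (by linarith)
    calc C * 2 ^ K / ((2 ^ (K - 2) : ℕ) : ℝ) ^ η ≤ C * 2 ^ K / (2 : ℝ) ^ (((K : ℝ) - 2) * η') := by
          gcongr
      _ = C * (2 : ℝ) ^ (2 * η') * (2 : ℝ) ^ ((1 - η' / 2 - η' / 2) * (K : ℝ)) := by
          rw [mul_assoc, ← Real.rpow_add (by norm_num), mul_div_assoc, ← Real.rpow_natCast,
            ← Real.rpow_sub (by norm_num)]
          congr 2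
          ring
      _ ≤ C * 4 * (2 : ℝ) ^ ((1 - η' / 2 - η' / 2) * (K : ℝ)) := by
          gcongr
          calc (2 : ℝ) ^ (2 * η') ≤ (2 : ℝ) ^ (2 : ℝ) := by
                apply Real.rpow_le_rpow_of_exponent_le (by norm_num)
                linarith
            _ = 4 := by norm_num
  · intro n hn t ht
    obtain ⟨ht1, ht2⟩ := ht
    push Not at ht2
    obtain ⟨x, hx1, hx2⟩ := ht2 (2 ^ n + L)
    have hpos : 0 < 2 ^ n := by positivity
    have hxL : x + L ≠ 0 := by omega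
    have hl1 : 2 ^ Nat.log 2 (x + L) ≤ x + L := Nat.pow_log_le_self 2 hxL
    have hl2 : x + L < 2 ^ (Nat.log 2 (x + L) + 1) := Nat.lt_pow_succ_log_self (by norm_num) _
    have hn2 : n ≤ Nat.log 2 (x + L) := by
      apply Nat.le_log_of_pow_le (by norm_num)
      omega
    obtain ⟨j, hj⟩ : ∃ j, Nat.log 2 (x + L) = j + 1 := ⟨Nat.log 2 (x + L) - 1, by omega⟩
    rw [hj] at hl1 hl2 hn2
    rw [Set.mem_iUnion]
    refine ⟨j + 1 + 1 - n, ?_⟩
    have hK : n + (j + 1 + 1 - n) = j + 2 := by omega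
    change t.appr (n + (j + 1 + 1 - n)) ∈ ({t ∈ range (2 ^ (n + (j + 1 + 1 - n))) | t % 2 = 1 ∧
      ∃ x, 2 ^ (n + (j + 1 + 1 - n) - 2) ≤ x ∧ x + L < 2 ^ (n + (j + 1 + 1 - n)) ∧
      (cntP M ρ c w t x : ℝ) < D * (x : ℝ) ^ (3 / 4 : ℝ)} : Finset ℕ)
    rw [hK, mem_filter, mem_range]
    refine ⟨PadicInt.appr_lt t _, ?_, x, ?_, ?_, ?_⟩
    · have h3 := appr_modEq t (show 1 ≤ j + 2 by omega)
      rw [pow_one] at h3
      have h4 : t.appr 1 % 2 = t.appr (j + 2) % 2 := h3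
      rw [← h4, ht1]
    · rw [pow_succ] at hl1
      rw [Nat.add_sub_cancel]
      omega
    · exact hl2
    · rw [← cntZ_eq M ρ c w t (show x + L < 2 ^ (j + 2) from hl2)]
      exact hx2

/-- the exceptional set of all patterns modulo `M` -/
theorem dim_all (M : ℕ) (hM : 0 < M) : ∃ s : ℝ, s < 1 ∧ ∀ w : ℕ → ZMod 2,
    dimH {t : ℤ_[2] | t.appr 1 = 1 ∧ ∃ (ρ L : ℕ) (c : Fin (L + 1) → ZMod 2), c ≠ 0 ∧
      ¬ Filter.Tendsto (fun x : ℕ => (cntZ M ρ c w t x : ℝ) / (x : ℝ) ^ (3 / 4 : ℝ)) Filter.atTop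
        Filter.atTop} ≤ ENNReal.ofReal s := by
  classical
  obtain ⟨η, hη, hmain⟩ := prog_bound M hM
  have h0 : 0 < min η 1 := lt_min hη one_pos
  refine ⟨1 - min η 1 / 2, by linarith, fun w => ?_⟩
  have hsub : {t : ℤ_[2] | t.appr 1 = 1 ∧ ∃ (ρ L : ℕ) (c : Fin (L + 1) → ZMod 2), c ≠ 0 ∧
      ¬ Filter.Tendsto (fun x : ℕ => (cntZ M ρ c w t x : ℝ) / (x : ℝ) ^ (3 / 4 : ℝ)) Filter.atTop
        Filter.atTop} ⊆ ⋃ i : ℕ × ((L : ℕ) × (Fin (L + 1) → ZMod 2)) × ℕ,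
          {t | i.2.1.2 ≠ 0 ∧ t ∈ Bd M i.1 i.2.1.2 w ((i.2.2 + 1 : ℕ) : ℝ)} := by
    rintro t ⟨h1, ρ, L, c, hc, hT⟩
    rw [Filter.tendsto_atTop, not_forall] at hT
    obtain ⟨B, hB⟩ := hT
    obtain ⟨D, hD⟩ := exists_nat_ge B
    rw [Set.mem_iUnion]
    refine ⟨(ρ, ⟨L, c⟩, D), hc, h1, ?_⟩
    rintro ⟨x₀, hx₀⟩
    apply hB
    filter_upwards [Filter.eventually_ge_atTop (max x₀ 1)] with x hx
    have hx1 : (0 : ℝ) < x := by
      exact_mod_cast (le_max_right x₀ 1).trans hx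
    have hxp : 0 < (x : ℝ) ^ (3 / 4 : ℝ) := by positivity
    rw [le_div_iff₀ hxp]
    refine le_trans ?_ (hx₀ x ((le_max_left _ _).trans hx))
    simp only
    push_cast
    gcongr
    linarith
  refine (dimH_mono hsub).trans ?_
  rw [dimH_iUnion]
  refine iSup_le fun i => ?_
  obtain ⟨ρ, ⟨L, c⟩, D⟩ := i
  by_cases hc : c ≠ 0
  · obtain ⟨C, hC, hb⟩ := hmain ρ L c hc w ((D + 1 : ℕ) : ℝ) (by positivity)
    refine (dimH_mono (fun t ht => ht.2)).trans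
      (dim_Bd hη ρ L c w ((D + 1 : ℕ) : ℝ) C hC ?_)
    intro K X₀ hX
    refine le_trans (le_of_eq ?_) (hb K X₀ hX)
    rw [← Set.ncard_coe_finset]
    congr 2
    ext t
    simp
  · have : {t : ℤ_[2] | c ≠ 0 ∧ t ∈ Bd M ρ c w ((D + 1 : ℕ) : ℝ)} = ∅ := by
      ext t
      simp only [Set.mem_ofPred_eq, Set.mem_empty_iff_false, iff_false]
      exact fun h => hc h.1
    change dimH {t : ℤ_[2] | c ≠ 0 ∧ t ∈ Bd M ρ c w ((D + 1 : ℕ) : ℝ)} ≤ _
    rw [this, dimH_empty]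
    exact zero_le

end Pool.Agent.K7.H72.MT
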